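import Mathlib

/-!
# Uniform lattices that are L-equivalent but not representation equivalent

The group is `G = SL₂(ℝ) × SL₂(ℝ)`.  Its `L`-packets are the orbits of `GL₂(ℝ) × GL₂(ℝ)` (acting by
conjugation) on the unitary dual.

Let `Γ₀` be the group of norm one elements of the order `ℤ[i] + ℤ[i] j`, `j² = 3`, `i j = - j i`, of
the quaternion division algebra `(-1, 3)` over `ℚ`, embedded in `SL₂(ℝ)` by the matrices
`[[a + √3 b, -c + √3 d], [c + √3 d, a - √3 b]]`.  The first lattice is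
`Γ₁ = {(A, B) ∈ Γ₀ × Γ₀ : A ≡ B mod 24}` and the second one is `Γ₂ = θ(Γ₁)`, where `θ` is
conjugation by `(1, diag(1, -1))`.

* `Γ₁` and `Γ₂` are `L`-equivalent since `m(π, θ Γ) = m(π ∘ θ, Γ)` and `π ∘ θ` lies in the
  `L`-packet of `π`.
* `Γ₁` contains the pair `(J, J)`, where `J` is the rotation by the angle `π / 2`, but no pair
  `(A, B)` where `A`, `B` are elliptic, `|tr A| < 1`, `|tr B| < 1`, and `A`, `B` rotate in
  opposite directions.  This rests on an arithmetic fact (`asym`): if `a + b j + c i + d k` has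
  norm one and `a = 0`, then `c` and `-c` belong to different sets of classes modulo `24`,
  according to the sign of `c`.
* If `L²(G / Γ₁)` and `L²(G / Γ₂)` were equivalent then there would be a unitary operator of
  `L²(G / Γ₁)` intertwining the regular representation with its twist by `θ`.  The
  Hilbert-Schmidt norms of the convolution operators of `f` and of `f ∘ θ` would be equal, for all
  bounded measurable `f` with relatively compact support. Since these norms are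
  `∬ |∑_γ f (x γ y⁻¹)|² dx dy`, polarisation for the indicator functions of a small neighbourhood of
  `1` and of a neighbourhood of `(J, J)` consisting of elliptic elements gives a contradiction.
-/

namespace Pool.Agent.Results.MP_96637b_nt.LEquivNotRep

section Part0

open MeasureTheory Module Topology

/-! ### Unitary representations on a given Hilbert space -/

section fixed

variable {G H K : Type} [Group G] [NormedAddCommGroup H] [InnerProductSpace ℂ H]
  [NormedAddCommGroup K] [InnerProductSpace ℂ K]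

variable (G H) in
/-- Homomorphisms from `G` to the unitary group of `H`. -/
abbrev UnitaryHom : Type := G →* (H ≃ₗᵢ[ℂ] H)

/-- Strong continuity. -/
def IsStronglyContinuous [TopologicalSpace G] (ρ : UnitaryHom G H) : Prop :=
  ∀ v : H, Continuous fun g => ρ g v

/-- Irreducibility: the space is nonzero and has no proper nonzero closed invariant subspace. -/
def IsIrreducible (ρ : UnitaryHom G H) : Prop :=
  Nontrivial H ∧ ∀ W : Submodule ℂ H, IsClosed (W : Set H) →
    (∀ g, ∀ v ∈ W, ρ g v ∈ W) → W = ⊥ ∨ W = ⊤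

/-- The homomorphism `ρ ∘ α` for a topological automorphism `α` of `G`. -/
def precomp [TopologicalSpace G] (ρ : UnitaryHom G H) (α : G ≃ₜ* G) : UnitaryHom G H :=
  MonoidHom.comp ρ (α : G →* G)

/-- The action by linear isometries of a homomorphism to the unitary group. -/
def act (ρ : UnitaryHom G H) (g : G) : H →ₗᵢ[ℂ] H := (ρ g).toLinearIsometry

/-- Unitary equivalence of two actions by linear isometries. -/
def UnitarilyEquivalent (ρ : G → H →ₗᵢ[ℂ] H) (σ : G → K →ₗᵢ[ℂ] K) : Prop :=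
  ∃ U : H ≃ₗᵢ[ℂ] K, ∀ g v, U (ρ g v) = σ g (U v)

/-- The dimension of the space of continuous intertwining operators. -/
noncomputable def intertwinerDim (ρ : G → H →ₗᵢ[ℂ] H) (σ : G → K →ₗᵢ[ℂ] K) : Cardinal.{0} :=
  Module.rank ℂ (Submodule.span ℂ {T : H →L[ℂ] K | ∀ g v, T (ρ g v) = σ g (T v)})

end fixed

section lemmas

set_option linter.unusedSectionVars false

variable {G H K : Type} [Group G] [NormedAddCommGroup H] [InnerProductSpace ℂ H]
  [NormedAddCommGroup K] [InnerProductSpace ℂ K]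

theorem equiv_refl (ρ : G → H →ₗᵢ[ℂ] H) : UnitarilyEquivalent ρ ρ :=
  ⟨LinearIsometryEquiv.refl ℂ _, fun _ _ => rfl⟩

theorem equiv_symm {ρ : G → H →ₗᵢ[ℂ] H} {σ : G → K →ₗᵢ[ℂ] K} (h : UnitarilyEquivalent ρ σ) :
    UnitarilyEquivalent σ ρ := by
  obtain ⟨U, hU⟩ := h
  exact ⟨U.symm, fun g v => by
    apply U.injective
    rw [hU, LinearIsometryEquiv.apply_symm_apply, LinearIsometryEquiv.apply_symm_apply]⟩

theorem equiv_trans {H' : Type} [NormedAddCommGroup H'] [InnerProductSpace ℂ H']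
    {ρ : G → H →ₗᵢ[ℂ] H} {σ : G → K →ₗᵢ[ℂ] K} {τ : G → H' →ₗᵢ[ℂ] H'}
    (h : UnitarilyEquivalent ρ σ) (h' : UnitarilyEquivalent σ τ) : UnitarilyEquivalent ρ τ := by
  obtain ⟨U, hU⟩ := h
  obtain ⟨V, hV⟩ := h'
  exact ⟨U.trans V, fun g v => by simp [hU, hV]⟩

theorem continuous_precomp [TopologicalSpace G] (α : G ≃ₜ* G) {ρ : UnitaryHom G H}
    (h : IsStronglyContinuous ρ) : IsStronglyContinuous (precomp ρ α) :=
  fun v => (h v).comp α.continuous

theorem irreducible_precomp [TopologicalSpace G] (α : G ≃ₜ* G) {ρ : UnitaryHom G H}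
    (h : IsIrreducible ρ) : IsIrreducible (precomp ρ α) := by
  refine ⟨h.1, fun W hW hinv => h.2 W hW fun g v hv => ?_⟩
  have := hinv (α.symm g) v hv
  change ρ (α (α.symm g)) v ∈ W at this
  rwa [ContinuousMulEquiv.apply_symm_apply] at this

/-- Intertwining dimensions are preserved by changes of spaces. -/
theorem intertwinerDim_congr {H' K' : Type} [NormedAddCommGroup H'] [InnerProductSpace ℂ H']
    [NormedAddCommGroup K'] [InnerProductSpace ℂ K']
    (ρ : G → H →ₗᵢ[ℂ] H) (ρ' : G → H' →ₗᵢ[ℂ] H') (σ : G → K →ₗᵢ[ℂ] K) (σ' : G → K' →ₗᵢ[ℂ] K')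
    (α : G → G) (hα : Function.Surjective α) (U : H ≃ₗᵢ[ℂ] H') (W : K ≃ₗᵢ[ℂ] K')
    (hU : ∀ g v, U (ρ g v) = ρ' (α g) (U v)) (hW : ∀ g v, W (σ g v) = σ' (α g) (W v)) :
    intertwinerDim ρ σ = intertwinerDim ρ' σ' := by
  let e : (H →L[ℂ] K) ≃ₗ[ℂ] (H' →L[ℂ] K') :=
    { toFun := fun T => (W : K →L[ℂ] K').comp (T.comp (U.symm : H' →L[ℂ] H))
      invFun := fun T => (W.symm : K' →L[ℂ] K).comp (T.comp (U : H →L[ℂ] H'))
      left_inv := fun T => by
        apply ContinuousLinearMap.ext; intro v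
        show W.symm (W (T (U.symm (U v)))) = T v
        rw [LinearIsometryEquiv.symm_apply_apply, LinearIsometryEquiv.symm_apply_apply]
      right_inv := fun T => by
        apply ContinuousLinearMap.ext; intro v
        show W (W.symm (T (U (U.symm v)))) = T v
        rw [LinearIsometryEquiv.apply_symm_apply, LinearIsometryEquiv.apply_symm_apply]
      map_add' := fun S T => by
        apply ContinuousLinearMap.ext; intro v
        show W (S (U.symm v) + T (U.symm v)) = _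
        rw [map_add]; rfl
      map_smul' := fun c T => by
        apply ContinuousLinearMap.ext; intro v
        show W (c • T (U.symm v)) = _
        rw [map_smul]; rfl }
  have himg : (e : (H →L[ℂ] K) → (H' →L[ℂ] K')) '' {T | ∀ g v, T (ρ g v) = σ g (T v)} =
      {T | ∀ g v, T (ρ' g v) = σ' g (T v)} := by
    ext T
    constructor
    · rintro ⟨S, hS, rfl⟩ g v
      obtain ⟨g, rfl⟩ := hα g
      obtain ⟨v, rfl⟩ := U.surjective v
      show W (S (U.symm (ρ' (α g) (U v)))) = σ' (α g) (W (S (U.symm (U v))))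
      rw [← hU, LinearIsometryEquiv.symm_apply_apply, LinearIsometryEquiv.symm_apply_apply, hS g v,
        hW]
    · intro hT
      refine ⟨e.symm T, fun g v => ?_, e.apply_symm_apply T⟩
      show W.symm (T (U (ρ g v))) = σ g (W.symm (T (U v)))
      apply W.injective
      rw [LinearIsometryEquiv.apply_symm_apply, hU, hW, LinearIsometryEquiv.apply_symm_apply]
      exact hT (α g) (U v)
  unfold intertwinerDim
  have h1 := (e.submoduleMap (Submodule.span ℂ {T : H →L[ℂ] K | ∀ g v, T (ρ g v) = σ g (T v)})).rank_eq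
  have himg2 : ((e : (H →L[ℂ] K) →ₗ[ℂ] (H' →L[ℂ] K')) : (H →L[ℂ] K) → (H' →L[ℂ] K')) ''
      {T | ∀ g v, T (ρ g v) = σ g (T v)} = {T | ∀ g v, T (ρ' g v) = σ' g (T v)} := himg
  rw [h1, Submodule.map_span, himg2]

theorem intertwinerDim_eq {H' : Type} [NormedAddCommGroup H'] [InnerProductSpace ℂ H']
    {ρ : G → H →ₗᵢ[ℂ] H} {ρ' : G → H' →ₗᵢ[ℂ] H'} (σ : G → K →ₗᵢ[ℂ] K)
    (h : UnitarilyEquivalent ρ ρ') : intertwinerDim ρ σ = intertwinerDim ρ' σ := by
  obtain ⟨U, hU⟩ := h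
  exact intertwinerDim_congr ρ ρ' σ σ id Function.surjective_id U (LinearIsometryEquiv.refl ℂ K)
    hU (fun _ _ => rfl)

end lemmas

/-! ### The unitary dual -/

/-- An irreducible (strongly continuous) unitary representation of a topological group `G` on a
complex Hilbert space `H`. -/
structure IrrRep (G : Type) [Group G] [TopologicalSpace G] where
  /-- the Hilbert space -/
  H : Type
  [normed : NormedAddCommGroup H]
  [inner : InnerProductSpace ℂ H]
  [complete : CompleteSpace H]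
  /-- the action by unitary operators -/
  ρ : UnitaryHom G H
  continuous : IsStronglyContinuous ρ
  irreducible : IsIrreducible ρ

attribute [instance] IrrRep.normed IrrRep.inner IrrRep.complete

section reps

variable {G : Type} [Group G] [TopologicalSpace G]

theorem irr_equivalence :
    Equivalence fun π σ : IrrRep G => UnitarilyEquivalent (act π.ρ) (act σ.ρ) :=
  ⟨fun _ => equiv_refl _, fun h => equiv_symm h, fun h h' => equiv_trans h h'⟩

variable (G) in
/-- Unitary equivalence of irreducible unitary representations, as a setoid. -/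
instance irrSetoid : Setoid (IrrRep G) where
  r π σ := UnitarilyEquivalent (act π.ρ) (act σ.ρ)
  iseqv := irr_equivalence

variable (G) in
/-- The unitary dual `Ĝ`: equivalence classes of irreducible unitary representations. -/
abbrev UnitaryDual : Type 1 := Quotient (irrSetoid G)

/-- The representation `π ∘ α` for a topological automorphism `α` of `G`. -/
def IrrRep.twist (α : G ≃ₜ* G) (π : IrrRep G) : IrrRep G where
  H := π.H
  ρ := precomp π.ρ α
  continuous := continuous_precomp α π.continuous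
  irreducible := irreducible_precomp α π.irreducible

theorem IrrRep.twist_congr (α : G ≃ₜ* G) (π σ : IrrRep G) (h : π ≈ σ) :
    π.twist α ≈ σ.twist α := by
  obtain ⟨U, hU⟩ := h
  exact ⟨U, fun g v => hU (α g) v⟩

/-- The action of the automorphism `α` on the unitary dual: the class of `π` goes to the class of
`π ∘ α`. -/
def UnitaryDual.twist (α : G ≃ₜ* G) : UnitaryDual G → UnitaryDual G :=
  Quotient.map (IrrRep.twist α) (IrrRep.twist_congr α)

end reps

/-! ### Uniform lattices and their multiplicities -/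

/-- The measure `μ` is invariant under `G`. -/
def IsInvariant (G : Type) {X : Type} [Group G] [MulAction G X] [MeasurableSpace X]
    (μ : Measure X) : Prop :=
  ∀ g : G, MeasurePreserving (fun x : X => g • x) μ μ

/-- A uniform lattice `Γ` of `G`, together with a nonzero finite `G`-invariant measure on `G / Γ`
(which is unique up to a scalar). -/
structure UniformLattice (G : Type) [Group G] [TopologicalSpace G] [MeasurableSpace G] where
  /-- the discrete subgroup -/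
  Γ : Subgroup G
  discrete : DiscreteTopology Γ
  cocompact : CompactSpace (G ⧸ Γ)
  /-- the invariant measure on the quotient -/
  μ : Measure (G ⧸ Γ)
  invariant : IsInvariant G μ
  finite : IsFiniteMeasure μ
  ne_zero : μ ≠ 0

attribute [instance] UniformLattice.discrete UniformLattice.cocompact UniformLattice.finite

/-- The regular representation on `L²`: `(translation μ h g f)(x) = f (g⁻¹ x)`. -/
noncomputable def translation {G X : Type} [Group G] [MulAction G X] [MeasurableSpace X]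
    (μ : Measure X) (h : IsInvariant G μ) (g : G) : Lp ℂ 2 μ →ₗᵢ[ℂ] Lp ℂ 2 μ :=
  Lp.compMeasurePreservingₗᵢ ℂ (fun x => g⁻¹ • x) (h g⁻¹)

section mult

variable {G : Type} [Group G] [TopologicalSpace G] [MeasurableSpace G]

/-- The multiplicity `m(π, Γ) = dim Hom_G (π, L²(G / Γ))` of an irreducible unitary
representation. -/
noncomputable def IrrRep.mult (L : UniformLattice G) (π : IrrRep G) : Cardinal.{0} :=
  intertwinerDim (act π.ρ) (translation L.μ L.invariant)

theorem IrrRep.mult_congr (L : UniformLattice G) (π σ : IrrRep G) (h : π ≈ σ) :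
    π.mult L = σ.mult L := intertwinerDim_eq _ h

/-- The multiplicity `m(a, Γ)` of a class `a` in the unitary dual. -/
noncomputable def mult (a : UnitaryDual G) (L : UniformLattice G) : Cardinal.{0} :=
  Quotient.lift (IrrRep.mult L) (IrrRep.mult_congr L) a

/-- The multiplicity of the packet of `a` for a relation `R` on the unitary dual:
the sum of `m(b, Γ)` over all classes `b` with `R a b`. -/
noncomputable def packetMult (R : UnitaryDual G → UnitaryDual G → Prop) (a : UnitaryDual G)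
    (L : UniformLattice G) : Cardinal.{1} :=
  Cardinal.sum fun b : {b : UnitaryDual G // R a b} => mult b.1 L

/-- Two uniform lattices are representation equivalent if `L²(G / Γ₁)` and `L²(G / Γ₂)` are
equivalent unitary representations. -/
def RepEquivalent (L₁ L₂ : UniformLattice G) : Prop :=
  UnitarilyEquivalent (translation L₁.μ L₁.invariant) (translation L₂.μ L₂.invariant)

end mult

/-! ### The group `SL₂(ℝ) × SL₂(ℝ)` and its `L`-packets -/

/-- The group `SL₂(ℝ)`. -/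
abbrev SL2 : Type := Matrix.SpecialLinearGroup (Fin 2) ℝ

/-- The group `SL₂(ℝ) × SL₂(ℝ)` of real points of the semisimple algebraic group `SL₂ × SL₂`. -/
abbrev GG : Type := SL2 × SL2

/-- The Borel sigma-algebra of `SL₂(ℝ)`. -/
instance instMeasSL2 : MeasurableSpace SL2 := borel SL2

/-- The automorphism `α` of `SL₂(ℝ) × SL₂(ℝ)` is conjugation by an element `P` of
`GL₂(ℝ) × GL₂(ℝ)`. -/
def IsConjBy (P : GL (Fin 2) ℝ × GL (Fin 2) ℝ) (α : GG ≃ₜ* GG) : Prop :=
  ∀ g : GG, (α g).1.1 = P.1.1 * g.1.1 * P.1⁻¹.1 ∧ (α g).2.1 = P.2.1 * g.2.1 * P.2⁻¹.1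

/-- The `L`-packets of `G = SL₂(ℝ) × SL₂(ℝ)`: the orbits of `GL₂(ℝ) × GL₂(ℝ)` on the unitary
dual. -/
def SameLPacket (a b : UnitaryDual GG) : Prop :=
  ∃ (P : GL (Fin 2) ℝ × GL (Fin 2) ℝ) (α : GG ≃ₜ* GG),
    IsConjBy P α ∧ b = UnitaryDual.twist α a

/-- `L`-equivalence of uniform lattices in `G = SL₂(ℝ) × SL₂(ℝ)`. -/
def LEquivalent (L₁ L₂ : UniformLattice GG) : Prop :=
  ∀ a : UnitaryDual GG, packetMult SameLPacket a L₁ = packetMult SameLPacket a L₂

end Part0

section Part1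

open MeasureTheory Module Topology

instance instBorelSL2 : BorelSpace SL2 := ⟨rfl⟩

instance instPolishSL2 : PolishSpace SL2 :=
  haveI : PolishSpace (Matrix (Fin 2) (Fin 2) ℝ) :=
    inferInstanceAs (PolishSpace (Fin 2 → Fin 2 → ℝ))
  (Matrix.SpecialLinearGroup.isClosedEmbedding_val (n := Fin 2) (R := ℝ)).polishSpace

instance instLocSL2 : LocallyCompactSpace SL2 :=
  haveI : LocallyCompactSpace (Matrix (Fin 2) (Fin 2) ℝ) :=
    inferInstanceAs (LocallyCompactSpace (Fin 2 → Fin 2 → ℝ))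
  (Matrix.SpecialLinearGroup.isClosedEmbedding_val (n := Fin 2) (R := ℝ)).locallyCompactSpace

section shift

variable {G : Type} [Group G] [TopologicalSpace G] [IsTopologicalGroup G] [MeasurableSpace G]
  [BorelSpace G]

instance instMCS (Γ : Subgroup G) : MeasurableConstSMul G (G ⧸ Γ) where
  measurable_const_smul g := by
    intro s hs
    show MeasurableSet ((QuotientGroup.mk : G → G ⧸ Γ) ⁻¹' ((fun x => g • x) ⁻¹' s))
    have h1 : MeasurableSet ((QuotientGroup.mk : G → G ⧸ Γ) ⁻¹' s) := hs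
    exact measurable_const_mul g h1

/-- The regular representation of `G` on `L²(G / Γ)`, with invariance given by an instance. -/
noncomputable def shift {Γ : Subgroup G} (μ : Measure (G ⧸ Γ)) [SMulInvariantMeasure G (G ⧸ Γ) μ]
    (g : G) : Lp ℂ 2 μ →ₗᵢ[ℂ] Lp ℂ 2 μ :=
  Lp.compMeasurePreservingₗᵢ ℂ (fun x => g⁻¹ • x) (measurePreserving_smul g⁻¹ μ)

end shift

/-- Conjugation by an element of `GL₂(ℝ)`, as a topological automorphism of `SL₂(ℝ)`. -/
noncomputable def conjSL (P : GL (Fin 2) ℝ) : SL2 ≃ₜ* SL2 where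
  toFun A := ⟨P.1 * A.1 * P⁻¹.1, by
    rw [Matrix.det_mul, Matrix.det_mul, A.2, mul_one, ← Matrix.det_mul, ← Units.val_mul,
      mul_inv_cancel, Units.val_one, Matrix.det_one]⟩
  invFun A := ⟨P⁻¹.1 * A.1 * P.1, by
    rw [Matrix.det_mul, Matrix.det_mul, A.2, mul_one, ← Matrix.det_mul, ← Units.val_mul,
      inv_mul_cancel, Units.val_one, Matrix.det_one]⟩
  left_inv A := by
    apply Subtype.ext
    show P⁻¹.1 * (P.1 * A.1 * P⁻¹.1) * P.1 = A.1
    rw [Matrix.mul_assoc, Matrix.mul_assoc, ← Units.val_mul, inv_mul_cancel, Units.val_one,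
      Matrix.mul_one, ← Matrix.mul_assoc, ← Units.val_mul, inv_mul_cancel, Units.val_one,
      Matrix.one_mul]
  right_inv A := by
    apply Subtype.ext
    show P.1 * (P⁻¹.1 * A.1 * P.1) * P⁻¹.1 = A.1
    rw [Matrix.mul_assoc, Matrix.mul_assoc, ← Units.val_mul, mul_inv_cancel, Units.val_one,
      Matrix.mul_one, ← Matrix.mul_assoc, ← Units.val_mul, mul_inv_cancel, Units.val_one,
      Matrix.one_mul]
  map_mul' A B := by
    apply Subtype.ext
    show P.1 * (A.1 * B.1) * P⁻¹.1 = (P.1 * A.1 * P⁻¹.1) * (P.1 * B.1 * P⁻¹.1)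
    simp only [Matrix.mul_assoc]
    rw [← Matrix.mul_assoc P⁻¹.1 P.1, ← Units.val_mul, inv_mul_cancel, Units.val_one,
      Matrix.one_mul]
  continuous_toFun := by
    apply Continuous.subtype_mk
    exact (continuous_const.matrix_mul continuous_subtype_val).matrix_mul continuous_const
  continuous_invFun := by
    apply Continuous.subtype_mk
    exact (continuous_const.matrix_mul continuous_subtype_val).matrix_mul continuous_const

/-- Conjugation by an element of `GL₂(ℝ) × GL₂(ℝ)` on `SL₂(ℝ) × SL₂(ℝ)`. -/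
noncomputable def conjGG (P : GL (Fin 2) ℝ × GL (Fin 2) ℝ) : GG ≃ₜ* GG where
  toFun g := (conjSL P.1 g.1, conjSL P.2 g.2)
  invFun g := ((conjSL P.1).symm g.1, (conjSL P.2).symm g.2)
  left_inv g := by simp
  right_inv g := by simp
  map_mul' g h := by simp
  continuous_toFun := ((conjSL P.1).continuous.comp continuous_fst).prodMk
    ((conjSL P.2).continuous.comp continuous_snd)
  continuous_invFun := ((conjSL P.1).symm.continuous.comp continuous_fst).prodMk
    ((conjSL P.2).symm.continuous.comp continuous_snd)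

/-- Sanity check: conjugation by every element of `GL₂(ℝ) × GL₂(ℝ)` is a topological automorphism
of `SL₂(ℝ) × SL₂(ℝ)`. -/
theorem isConjBy_conjGG (P : GL (Fin 2) ℝ × GL (Fin 2) ℝ) : IsConjBy P (conjGG P) :=
  fun _ => ⟨rfl, rfl⟩

end Part1

section Part2



/-- Coprime factors of a sum of two squares are sums of two squares (left factor). -/
theorem sum_two_sq_of_coprime_mul {u v x y : ℕ} (hv : v ≠ 0) (hc : Nat.Coprime u v)
    (h : u * v = x ^ 2 + y ^ 2) : ∃ a b, u = a ^ 2 + b ^ 2 := by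
  rcases Nat.eq_zero_or_pos u with rfl | hu
  · exact ⟨0, 0, rfl⟩
  rw [Nat.eq_sq_add_sq_iff]
  intro q hq h4
  have hqp : q.Prime := Nat.prime_of_mem_primeFactors hq
  have : Fact q.Prime := ⟨hqp⟩
  have hqu : q ∣ u := Nat.dvd_of_mem_primeFactors hq
  have h1 := (Nat.eq_sq_add_sq_iff (n := u * v)).1 ⟨x, y, h⟩ q
    (Nat.mem_primeFactors.2 ⟨hqp, dvd_mul_of_dvd_left hqu v, Nat.mul_ne_zero hu.ne' hv⟩) h4
  have hqv : ¬ q ∣ v := fun hh =>
    hqp.one_lt.ne' (Nat.eq_one_of_dvd_coprimes hc hqu hh)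
  rw [padicValNat.mul hu.ne' hv, padicValNat.eq_zero_of_not_dvd hqv, add_zero] at h1
  exact h1

theorem sq_mod8 (a : ℕ) : a ^ 2 % 8 = 0 ∨ a ^ 2 % 8 = 1 ∨ a ^ 2 % 8 = 4 := by
  have h : a % 8 = 0 ∨ a % 8 = 1 ∨ a % 8 = 2 ∨ a % 8 = 3 ∨ a % 8 = 4 ∨ a % 8 = 5 ∨ a % 8 = 6 ∨
    a % 8 = 7 := by omega
  rcases h with h | h | h | h | h | h | h | h <;> simp [Nat.pow_mod, h]

theorem mod8_of_sum {u : ℕ} (h : ∃ a b, u = a ^ 2 + b ^ 2) :
    u % 8 ≠ 3 ∧ u % 8 ≠ 6 ∧ u % 8 ≠ 7 := by
  obtain ⟨a, b, rfl⟩ := h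
  have h1 := sq_mod8 a
  have h2 := sq_mod8 b
  omega

theorem key_nat {c m n : ℕ} (hc : 0 < c) (h : c ^ 2 = 1 + 3 * (m ^ 2 + n ^ 2)) :
    c % 24 = 1 ∨ c % 24 = 2 ∨ c % 24 = 4 ∨ c % 24 = 5 ∨ c % 24 = 7 ∨ c % 24 = 11 ∨
      c % 24 = 14 ∨ c % 24 = 16 := by
  rcases Nat.even_or_odd' c with ⟨s, rfl | rfl⟩
  · -- even case
    obtain ⟨t, rfl⟩ : ∃ t, s = t + 1 := ⟨s - 1, by omega⟩
    -- c - 1 = 2 t + 1, c + 1 = 2 t + 3
    have h0 : (2 * t + 1) * (2 * t + 3) = 3 * (m ^ 2 + n ^ 2) := by nlinarith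
    have hcop : Nat.Coprime (2 * t + 1) (2 * t + 3) := by
      have : Nat.Coprime (2 * t + 1) (2 * t + 1 + 2) := by
        rw [Nat.coprime_self_add_right]
        exact (Nat.coprime_two_right (n := 2 * t + 1)).2 ⟨t, rfl⟩
      exact this
    have h3 : 3 ∣ (2 * t + 1) * (2 * t + 3) := ⟨_, h0⟩
    rcases (Nat.Prime.dvd_mul Nat.prime_three).1 h3 with ⟨w, hw⟩ | ⟨w, hw⟩
    · have h1 : (2 * t + 3) * w = m ^ 2 + n ^ 2 := by
        rw [hw] at h0
        have : 3 * ((2 * t + 3) * w) = 3 * (m ^ 2 + n ^ 2) := by rw [← h0]; ring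
        omega
      have hco : Nat.Coprime (2 * t + 3) w := by
        apply Nat.Coprime.symm
        apply Nat.Coprime.coprime_dvd_left _ hcop
        exact ⟨3, by rw [hw]; ring⟩
      have hw0 : w ≠ 0 := by rintro rfl; omega
      have := mod8_of_sum (sum_two_sq_of_coprime_mul hw0 hco h1)
      omega
    · have h1 : (2 * t + 1) * w = m ^ 2 + n ^ 2 := by
        rw [hw] at h0
        have : 3 * ((2 * t + 1) * w) = 3 * (m ^ 2 + n ^ 2) := by rw [← h0]; ring
        omega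
      have hco : Nat.Coprime (2 * t + 1) w := by
        apply Nat.Coprime.coprime_dvd_right _ hcop
        exact ⟨3, by rw [hw]; ring⟩
      have hw0 : w ≠ 0 := by rintro rfl; omega
      have := mod8_of_sum (sum_two_sq_of_coprime_mul hw0 hco h1)
      omega
  · -- odd case
    have h0 : 4 * (s * (s + 1)) = 3 * (m ^ 2 + n ^ 2) := by nlinarith
    have hm := sq_mod8 m
    have hn := sq_mod8 n
    have hme : Even m := by
      by_contra hodd
      rw [Nat.not_even_iff_odd] at hodd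
      have : m ^ 2 % 8 = 1 := by
        obtain ⟨k, rfl⟩ := hodd
        have : (2 * k + 1) ^ 2 = 4 * (k * (k + 1)) + 1 := by ring
        have h2 : 2 ∣ k * (k + 1) := (Nat.even_mul_succ_self k).two_dvd
        omega
      omega
    have hne : Even n := by
      by_contra hodd
      rw [Nat.not_even_iff_odd] at hodd
      have : n ^ 2 % 8 = 1 := by
        obtain ⟨k, rfl⟩ := hodd
        have : (2 * k + 1) ^ 2 = 4 * (k * (k + 1)) + 1 := by ring
        have h2 : 2 ∣ k * (k + 1) := (Nat.even_mul_succ_self k).two_dvd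
        omega
      omega
    obtain ⟨m', rfl⟩ := hme
    obtain ⟨n', rfl⟩ := hne
    have h1 : s * (s + 1) = 3 * (m' ^ 2 + n' ^ 2) := by
      have : 4 * (s * (s + 1)) = 4 * (3 * (m' ^ 2 + n' ^ 2)) := by rw [h0]; ring
      omega
    have hcop : Nat.Coprime s (s + 1) := by simp
    rcases Nat.eq_zero_or_pos s with rfl | hs
    · left; rfl
    have h3 : 3 ∣ s * (s + 1) := ⟨_, h1⟩
    rcases (Nat.Prime.dvd_mul Nat.prime_three).1 h3 with ⟨w, hw⟩ | ⟨w, hw⟩
    · have h2 : (s + 1) * w = m' ^ 2 + n' ^ 2 := by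
        have h4 : s * (s + 1) = 3 * ((s + 1) * w) := by
          conv_lhs => rw [hw]
          rw [hw]; ring
        omega
      have hw0 : w ≠ 0 := by rintro rfl; omega
      have hco : Nat.Coprime w (s + 1) := Nat.Coprime.coprime_dvd_left ⟨3, by rw [hw]; ring⟩ hcop
      have e1 := mod8_of_sum (sum_two_sq_of_coprime_mul hw0 hco.symm h2)
      have e2 := mod8_of_sum (sum_two_sq_of_coprime_mul (Nat.succ_ne_zero s) hco
        (by rw [mul_comm]; exact h2))
      omega
    · have h2 : s * w = m' ^ 2 + n' ^ 2 := by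
        have h4 : s * (s + 1) = 3 * (s * w) := by rw [hw]; ring
        omega
      have hw0 : w ≠ 0 := by rintro rfl; omega
      have hco : Nat.Coprime s w := Nat.Coprime.coprime_dvd_right ⟨3, by rw [hw]; ring⟩ hcop
      have e1 := mod8_of_sum (sum_two_sq_of_coprime_mul hw0 hco h2)
      have e2 := mod8_of_sum (sum_two_sq_of_coprime_mul hs.ne' hco.symm
        (by rw [mul_comm]; exact h2))
      clear h h0 h1 h2 hm hn
      have h8 : w % 8 = 0 ∨ w % 8 = 1 ∨ w % 8 = 2 ∨ w % 8 = 3 ∨ w % 8 = 4 ∨ w % 8 = 5 ∨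
        w % 8 = 6 ∨ w % 8 = 7 := by omega
      rcases h8 with h8 | h8 | h8 | h8 | h8 | h8 | h8 | h8 <;> omega

/-- The asymmetry lemma. -/
theorem asym {c m n c' m' n' : ℤ} (hc : 0 < c) (h : c ^ 2 = 1 + 3 * (m ^ 2 + n ^ 2))
    (hc' : c' < 0) (h' : c' ^ 2 = 1 + 3 * (m' ^ 2 + n' ^ 2)) (hmod : (24 : ℤ) ∣ c - c') : False := by
  have h1 := key_nat (c := c.natAbs) (m := m.natAbs) (n := n.natAbs) (by omega) (by
    zify; simpa using h)
  have h2 := key_nat (c := c'.natAbs) (m := m'.natAbs) (n := n'.natAbs) (by omega) (by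
    zify; simpa using h')
  omega

end Part2

section Part3

open Matrix

/-- the matrix of the quaternion `a + b j + c i + d k`, where `i ^ 2 = -1`, `j ^ 2 = 3`,
`k = i j = - j i`. -/
noncomputable def io (a b c d : ℤ) : Matrix (Fin 2) (Fin 2) ℝ :=
  !![(a : ℝ) + √3 * b, -(c : ℝ) + √3 * d; (c : ℝ) + √3 * d, (a : ℝ) - √3 * b]

theorem s3 : √3 * √3 = (3 : ℝ) := Real.mul_self_sqrt (by norm_num)

theorem io_mul (a b c d a' b' c' d' : ℤ) : io a b c d * io a' b' c' d' =
    io (a * a' + 3 * b * b' - c * c' + 3 * d * d') (a * b' + b * a' - c * d' + d * c')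
      (a * c' + c * a' - 3 * b * d' + 3 * d * b') (a * d' + d * a' + c * b' - b * c') := by
  have h := s3
  ext i j
  fin_cases i <;> fin_cases j <;> simp [io, Matrix.mul_apply, Fin.sum_univ_two] 
  · linear_combination (((b : ℝ) * b' + d * d') * h) 
  · linear_combination (((b : ℝ) * d' - d * b') * h) 
  · linear_combination (((d : ℝ) * b' - b * d') * h) 
  · linear_combination (((b : ℝ) * b' + d * d') * h) 

theorem io_one : io 1 0 0 0 = 1 := by
  ext i j
  fin_cases i <;> fin_cases j <;> simp [io]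

theorem io_adj (a b c d : ℤ) : (io a b c d).adjugate = io a (-b) (-c) (-d) := by
  rw [io, Matrix.adjugate_fin_two_of]
  ext i j
  fin_cases i <;> fin_cases j <;> simp [io] <;> ring

theorem io_det (a b c d : ℤ) : (io a b c d).det = ((a ^ 2 + c ^ 2 - 3 * b ^ 2 - 3 * d ^ 2 : ℤ) : ℝ) := by
  have h := s3
  rw [io, Matrix.det_fin_two_of]
  push_cast
  linear_combination (-(b : ℝ) ^ 2 - d ^ 2) * h

/-- congruence modulo 24 is compatible with the multiplication of quaternions -/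
theorem cong24 {x x' y y' : ℤ} (h : (24 : ℤ) ∣ x - x') (h' : (24 : ℤ) ∣ y - y') :
    (24 : ℤ) ∣ x * y - x' * y' := by
  obtain ⟨s, hs⟩ := h
  obtain ⟨t, ht⟩ := h'
  exact ⟨s * y + x' * t, by linear_combination y * hs + x' * ht⟩

/-- the fibre product congruence subgroup -/
def Lam : Subgroup GG where
  carrier := {g | ∃ a b c d a' b' c' d' : ℤ, g.1.1 = io a b c d ∧ g.2.1 = io a' b' c' d' ∧
    (24 : ℤ) ∣ a - a' ∧ (24 : ℤ) ∣ b - b' ∧ (24 : ℤ) ∣ c - c' ∧ (24 : ℤ) ∣ d - d'}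
  one_mem' := ⟨1, 0, 0, 0, 1, 0, 0, 0, by simp [io_one], by simp [io_one], by simp, by simp,
    by simp, by simp⟩
  mul_mem' := by
    rintro g h ⟨a, b, c, d, a', b', c', d', hg1, hg2, h1, h2, h3, h4⟩
      ⟨e, f, k, l, e', f', k', l', hh1, hh2, j1, j2, j3, j4⟩
    refine ⟨a * e + 3 * b * f - c * k + 3 * d * l, a * f + b * e - c * l + d * k,
      a * k + c * e - 3 * b * l + 3 * d * f, a * l + d * e + c * f - b * k,
      a' * e' + 3 * b' * f' - c' * k' + 3 * d' * l', a' * f' + b' * e' - c' * l' + d' * k',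
      a' * k' + c' * e' - 3 * b' * l' + 3 * d' * f', a' * l' + d' * e' + c' * f' - b' * k',
      ?_, ?_, ?_, ?_, ?_, ?_⟩
    · show (g * h).1.1 = _
      rw [Prod.fst_mul, Matrix.SpecialLinearGroup.coe_mul, hg1, hh1, io_mul]
    · show (g * h).2.1 = _
      rw [Prod.snd_mul, Matrix.SpecialLinearGroup.coe_mul, hg2, hh2, io_mul]
    · have := cong24 h1 j1
      have := cong24 h2 j2
      have := cong24 h3 j3
      have := cong24 h4 j4
      simp only [mul_assoc]
      omega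
    · have := cong24 h1 j2
      have := cong24 h2 j1
      have := cong24 h3 j4
      have := cong24 h4 j3
      omega
    · have := cong24 h1 j3
      have := cong24 h3 j1
      have := cong24 h2 j4
      have := cong24 h4 j2
      simp only [mul_assoc]
      omega
    · have := cong24 h1 j4
      have := cong24 h4 j1
      have := cong24 h3 j2
      have := cong24 h2 j3
      omega
  inv_mem' := by
    rintro g ⟨a, b, c, d, a', b', c', d', hg1, hg2, h1, h2, h3, h4⟩
    refine ⟨a, -b, -c, -d, a', -b', -c', -d', ?_, ?_, ?_, ?_, ?_, ?_⟩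
    · rw [Prod.fst_inv, Matrix.SpecialLinearGroup.coe_inv, hg1, io_adj]
    · rw [Prod.snd_inv, Matrix.SpecialLinearGroup.coe_inv, hg2, io_adj]
    all_goals omega

/-- the coordinate sum -/
theorem io_entries (a b c d : ℤ) : io a b c d 0 0 = a + √3 * b ∧ io a b c d 0 1 = -c + √3 * d ∧
    io a b c d 1 0 = c + √3 * d ∧ io a b c d 1 1 = a - √3 * b := by
  simp [io]

theorem s3pos : (0 : ℝ) < √3 := Real.sqrt_pos.2 (by norm_num)

theorem s3gt : (1 : ℝ) < √3 := by
  rw [show (1 : ℝ) = √1 by simp]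
  exact Real.sqrt_lt_sqrt (by norm_num) (by norm_num)

theorem s3lt : √3 < (2 : ℝ) := by
  rw [show (2 : ℝ) = √4 by rw [show (4 : ℝ) = 2 ^ 2 by norm_num]; simp]
  exact Real.sqrt_lt_sqrt (by norm_num) (by norm_num)

/-- Key non-conjugacy statement: in `Lam` there is no pair with both traces in `(-1, 1)`,
first lower left entry positive and second one negative. -/
theorem no_elliptic (g : GG) (hg : g ∈ Lam) (h1 : |g.1.1 0 0 + g.1.1 1 1| < 1)
    (h2 : |g.2.1 0 0 + g.2.1 1 1| < 1) (h3 : 0 < g.1.1 1 0) (h4 : g.2.1 1 0 < 0) : False := by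
  obtain ⟨a, b, c, d, a', b', c', d', hg1, hg2, e1, e2, e3, e4⟩ := hg
  obtain ⟨f1, f2, f3, f4⟩ := io_entries a b c d
  obtain ⟨f1', f2', f3', f4'⟩ := io_entries a' b' c' d'
  have hs := s3
  have ha : a = 0 := by
    rw [hg1, f1, f4] at h1
    have : |(2 : ℝ) * a| < 1 := by
      convert h1 using 2; ring
    have h5 : |(2 * a : ℤ)| < 1 := by exact_mod_cast this
    rw [abs_lt] at h5
    omega
  have ha' : a' = 0 := by
    rw [hg2, f1', f4'] at h2
    have : |(2 : ℝ) * a'| < 1 := by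
      convert h2 using 2; ring
    have h5 : |(2 * a' : ℤ)| < 1 := by exact_mod_cast this
    rw [abs_lt] at h5
    omega
  subst ha ha'
  have d1 : (0 : ℤ) ^ 2 + c ^ 2 - 3 * b ^ 2 - 3 * d ^ 2 = 1 := by
    have := io_det 0 b c d
    rw [← hg1, g.1.2] at this
    exact_mod_cast this.symm
  have d2 : (0 : ℤ) ^ 2 + c' ^ 2 - 3 * b' ^ 2 - 3 * d' ^ 2 = 1 := by
    have := io_det 0 b' c' d'
    rw [← hg2, g.2.2] at this
    exact_mod_cast this.symm
  have hc : 0 < c := by
    rw [hg1, f3] at h3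
    by_contra hcon
    have hc1 : (c : ℝ) ≤ 0 := by exact_mod_cast not_lt.1 hcon
    have h6 : (c : ℝ) ^ 2 < (√3 * d) ^ 2 := by
      have : (0:ℝ) ≤ -c := by linarith
      have h7 : -(c : ℝ) < √3 * d := by linarith
      calc (c : ℝ) ^ 2 = (-(c : ℝ)) ^ 2 := by ring
        _ < (√3 * d) ^ 2 := by gcongr
    have h8 : (c : ℝ) ^ 2 - 3 * b ^ 2 - 3 * d ^ 2 = 1 := by exact_mod_cast (by linarith : c ^ 2 - 3 * b ^ 2 - 3 * d ^ 2 = 1)
    have h9 : (√3 * d) ^ 2 = 3 * (d : ℝ) ^ 2 := by rw [mul_pow, sq, hs]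
    nlinarith [sq_nonneg (b : ℝ)]
  have hc' : c' < 0 := by
    rw [hg2, f3'] at h4
    by_contra hcon
    have hc1 : (0 : ℝ) ≤ c' := by exact_mod_cast not_lt.1 hcon
    have h6 : (c' : ℝ) ^ 2 < (√3 * d') ^ 2 := by
      have h7 : (c' : ℝ) < -(√3 * d') := by linarith
      calc (c' : ℝ) ^ 2 < (-(√3 * d')) ^ 2 := by gcongr
        _ = (√3 * d') ^ 2 := by ring
    have h8 : (c' : ℝ) ^ 2 - 3 * b' ^ 2 - 3 * d' ^ 2 = 1 := by exact_mod_cast (by linarith : c' ^ 2 - 3 * b' ^ 2 - 3 * d' ^ 2 = 1)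
    have h9 : (√3 * d') ^ 2 = 3 * (d' : ℝ) ^ 2 := by rw [mul_pow, sq, hs]
    nlinarith [sq_nonneg (b' : ℝ)]
  exact asym (m := b) (n := d) (m' := b') (n' := d') hc (by linarith) hc' (by linarith) e3

end Part3

section Part4

open Matrix MeasureTheory Module

theorem mink4 (M : Matrix (Fin 4) (Fin 4) ℝ) (h0 : M.det ≠ 0) (h : |M.det| < 16) :
    ∃ z : Fin 4 → ℤ, z ≠ 0 ∧ ∀ j, |∑ k, (z k : ℝ) * M k j| ≤ 2 := by
  classical
  have hli : LinearIndependent ℝ M := Matrix.linearIndependent_rows_of_det_ne_zero h0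
  let b : Basis (Fin 4) ℝ (Fin 4 → ℝ) := basisOfLinearIndependentOfCardEqFinrank hli (by simp)
  have hb : (b : Fin 4 → Fin 4 → ℝ) = M := coe_basisOfLinearIndependentOfCardEqFinrank hli (by simp)
  have hvol : volume (ZSpan.fundamentalDomain b) = ENNReal.ofReal |M.det| := by
    rw [ZSpan.volume_fundamentalDomain, hb]; rfl
  have : Countable (Submodule.span ℤ (Set.range b)).toAddSubgroup :=
    inferInstanceAs (Countable (Submodule.span ℤ (Set.range b)))
  obtain ⟨x, hx0, hx⟩ := exists_ne_zero_mem_lattice_of_measure_mul_two_pow_lt_measure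
    (s := Metric.closedBall (0 : Fin 4 → ℝ) 2)
    (ZSpan.isAddFundamentalDomain' b volume) (by intro x hx; simpa using hx)
    (convex_closedBall _ _) (by
      rw [hvol, Real.volume_pi_closedBall _ (by norm_num)]
      simp only [finrank_fin_fun, Fintype.card_fin]
      rw [show ((2 : ENNReal) ^ 4) = ENNReal.ofReal 16 by
        rw [show (16 : ℝ) = 2 ^ 4 by norm_num, ENNReal.ofReal_pow (by norm_num)]; norm_num]
      rw [← ENNReal.ofReal_mul (abs_nonneg _)]
      apply (ENNReal.ofReal_lt_ofReal_iff (by norm_num)).2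
      norm_num
      linarith)
  have hmem : (x : Fin 4 → ℝ) ∈ Submodule.span ℤ (Set.range b) := x.2
  rw [b.mem_span_iff_repr_mem ℤ] at hmem
  choose z hz using hmem
  have hsum : (x : Fin 4 → ℝ) = ∑ k, (z k : ℝ) • M k := by
    conv_lhs => rw [← b.sum_repr (x : Fin 4 → ℝ)]
    apply Finset.sum_congr rfl
    intro k _
    rw [← hz k, hb]
    simp
  refine ⟨z, ?_, ?_⟩
  · intro hzz
    apply hx0
    ext1
    rw [hsum]
    simp [hzz]
  · intro j
    have h1 : ‖(x : Fin 4 → ℝ)‖ ≤ 2 := by simpa using hx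
    have h2 := (norm_le_pi_norm (x : Fin 4 → ℝ) j).trans h1
    rw [hsum] at h2
    simpa [Finset.sum_apply] using h2

theorem small_multiple (g : SL2) : ∃ a b c d : ℤ, ¬ (a = 0 ∧ b = 0 ∧ c = 0 ∧ d = 0) ∧
    ∀ i j, |(g.1 * io a b c d) i j| ≤ 2 := by
  have hdet : g.1 0 0 * g.1 1 1 - g.1 0 1 * g.1 1 0 = 1 := by
    have := g.2
    rwa [Matrix.det_fin_two] at this
  set p := g.1 0 0
  set q := g.1 0 1
  set r := g.1 1 0
  set s := g.1 1 1
  have h3 := s3
  let M : Matrix (Fin 4) (Fin 4) ℝ := !![p, q, r, s; √3 * p, -√3 * q, √3 * r, -√3 * s;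
    q, -p, s, -r; √3 * q, √3 * p, √3 * s, √3 * r]
  have hM : M.det = 12 := by
    have h4 : M.det = √3 * √3 * (4 * (p * s - q * r) ^ 2) := by
      simp only [M, Matrix.det_succ_row_zero, Fin.sum_univ_succ, Matrix.of_apply,
        Matrix.cons_val', Matrix.submatrix]
      simp [Fin.succAbove]
      linear_combination (4 * (p * s - q * r) ^ 2) * h3
    rw [h4, h3, hdet]; norm_num
  obtain ⟨z, hz0, hz⟩ := mink4 M (by rw [hM]; norm_num) (by rw [hM]; norm_num)
  refine ⟨z 0, z 1, z 2, z 3, ?_, ?_⟩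
  · rintro ⟨h0, h1, h2, h3⟩
    apply hz0
    ext k
    fin_cases k <;> simp [h0, h1, h2, h3]
  · have e0 := hz 0
    have e1 := hz 1
    have e2 := hz 2
    have e3 := hz 3
    simp only [M, Fin.sum_univ_four, Matrix.of_apply, Matrix.cons_val', Matrix.cons_val_zero,
      Matrix.cons_val_one, Matrix.cons_val, Matrix.empty_val', Matrix.cons_val_fin_one] at e0 e1 e2 e3
    intro i j
    fin_cases i <;> fin_cases j
    · convert e0 using 2
      simp [io, Matrix.mul_apply, Fin.sum_univ_two]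
      change p * _ + q * _ = _
      ring
    · convert e1 using 2
      simp [io, Matrix.mul_apply, Fin.sum_univ_two]
      change p * _ + q * _ = _
      ring
    · convert e2 using 2
      simp [io, Matrix.mul_apply, Fin.sum_univ_two]
      change r * _ + s * _ = _
      ring
    · convert e3 using 2
      simp [io, Matrix.mul_apply, Fin.sum_univ_two]
      change r * _ + s * _ = _
      ring

end Part4

section Part5

open Matrix MeasureTheory Module

/-- reduced norm -/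
def nrm (a b c d : ℤ) : ℤ := a ^ 2 + c ^ 2 - 3 * b ^ 2 - 3 * d ^ 2

theorem aniso {a b c d : ℤ} (h : nrm a b c d = 0) : a = 0 ∧ b = 0 ∧ c = 0 ∧ d = 0 := by
  unfold nrm at h
  by_cases h0 : b = 0 ∧ d = 0
  · obtain ⟨rfl, rfl⟩ := h0
    have h1 : a ^ 2 + c ^ 2 = 0 := by linarith
    have h2 : a ^ 2 = 0 := by nlinarith [sq_nonneg a, sq_nonneg c]
    have h3 : c ^ 2 = 0 := by nlinarith [sq_nonneg a, sq_nonneg c]
    exact ⟨pow_eq_zero_iff (two_ne_zero) |>.1 h2, rfl, pow_eq_zero_iff (two_ne_zero) |>.1 h3, rfl⟩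
  · exfalso
    set n : ℕ := b.natAbs ^ 2 + d.natAbs ^ 2 with hn
    have hnpos : n ≠ 0 := by
      intro hh
      apply h0
      rw [hn] at hh
      have h1 : b.natAbs ^ 2 = 0 := by omega
      have h2 : d.natAbs ^ 2 = 0 := by omega
      simpa using And.intro h1 h2
    have h3 : 3 * n = a.natAbs ^ 2 + c.natAbs ^ 2 := by
      rw [hn]; zify; simp only [sq_abs]; linarith
    have e1 := (Nat.eq_sq_add_sq_iff (n := 3 * n)).1 ⟨_, _, h3⟩ 3
      (Nat.mem_primeFactors.2 ⟨Nat.prime_three, dvd_mul_right _ _, by omega⟩) rfl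
    have e2 : Even (padicValNat 3 n) := by
      by_cases hd : 3 ∣ n
      · exact (Nat.eq_sq_add_sq_iff (n := n)).1 ⟨_, _, hn⟩ 3
          (Nat.mem_primeFactors.2 ⟨Nat.prime_three, hd, hnpos⟩) rfl
      · rw [padicValNat.eq_zero_of_not_dvd hd]; exact Even.zero
    have : Fact (Nat.Prime 3) := ⟨Nat.prime_three⟩
    rw [padicValNat.mul (by norm_num) hnpos, padicValNat_self] at e1
    rw [Nat.even_iff] at e1 e2
    omega

/-- principal congruence subgroup members -/
def Cong (γ : SL2) : Prop := ∃ a b c d : ℤ, γ.1 = io a b c d ∧ (24 : ℤ) ∣ a - 1 ∧ (24 : ℤ) ∣ b ∧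
    (24 : ℤ) ∣ c ∧ (24 : ℤ) ∣ d

theorem nrm_dvd {N : ℤ} (h0 : N ≠ 0) (h1 : |N| ≤ 8) : N ∣ 840 := by
  rw [abs_le] at h1
  obtain ⟨h1, h2⟩ := h1
  have h3 : N = -8 ∨ N = -7 ∨ N = -6 ∨ N = -5 ∨ N = -4 ∨ N = -3 ∨ N = -2 ∨ N = -1 ∨
    N = 1 ∨ N = 2 ∨ N = 3 ∨ N = 4 ∨ N = 5 ∨ N = 6 ∨ N = 7 ∨ N = 8 := by omega
  rcases h3 with h | h | h | h | h | h | h | h | h | h | h | h | h | h | h | h <;> subst h <;>
    decide

theorem class_bound (N : ℤ) (hN0 : N ≠ 0) (hN : |N| ≤ 8) (r : Fin 4 → ZMod 20160) :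
    ∃ R : ℝ, ∀ (a b c d : ℤ), nrm a b c d = N → (a : ZMod 20160) = r 0 → (b : ZMod 20160) = r 1 →
      (c : ZMod 20160) = r 2 → (d : ZMod 20160) = r 3 → ∀ g : SL2,
      (∀ i j, |(g.1 * io a b c d) i j| ≤ 2) → ∃ γ : SL2, Cong γ ∧ ∀ i j, |(g * γ).1 i j| ≤ R := by
  by_cases hex : ∃ e f k l : ℤ, nrm e f k l = N ∧ (e : ZMod 20160) = r 0 ∧ (f : ZMod 20160) = r 1 ∧
      (k : ZMod 20160) = r 2 ∧ (l : ZMod 20160) = r 3
  swap
  · exact ⟨0, fun a b c d h1 h2 h3 h4 h5 => absurd ⟨a, b, c, d, h1, h2, h3, h4, h5⟩ hex⟩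
  obtain ⟨e, f, k, l, hn, he, hf, hk, hl⟩ := hex
  refine ⟨∑ i, ∑ j, 2 * |(io e f k l).adjugate i j|, ?_⟩
  intro a b c d hn' ha hb hc hd g hg
  obtain ⟨t, ht⟩ := nrm_dvd hN0 hN
  have red : ∀ x y : ℤ, (x : ZMod 20160) = (y : ZMod 20160) → ∃ z : ℤ, x = y + 20160 * z := by
    intro x y hxy
    have := (ZMod.intCast_eq_intCast_iff_dvd_sub x y 20160).1 hxy
    obtain ⟨z, hz⟩ := this
    exact ⟨-z, by push_cast at hz; linarith⟩
  obtain ⟨a1, ha1⟩ := red a e (by rw [ha, he])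
  obtain ⟨b1, hb1⟩ := red b f (by rw [hb, hf])
  obtain ⟨c1, hc1⟩ := red c k (by rw [hc, hk])
  obtain ⟨d1, hd1⟩ := red d l (by rw [hd, hl])
  unfold nrm at hn hn'
  set A := 1 + 24 * (t * (a1 * e - 3 * b1 * f + c1 * k - 3 * d1 * l)) with hA
  set B := 24 * (t * (-a1 * f + b1 * e + c1 * l - d1 * k)) with hB
  set C := 24 * (t * (-a1 * k + c1 * e + 3 * b1 * l - 3 * d1 * f)) with hC
  set D := 24 * (t * (-a1 * l + d1 * e - c1 * f + b1 * k)) with hD
  have hprod : io a b c d * (io e f k l).adjugate = (N : ℝ) • io A B C D := by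
    rw [io_adj, io_mul]
    have e1 : a * e + 3 * b * -f - c * -k + 3 * d * -l = N * A := by
      rw [hA, ha1, hb1, hc1, hd1]; linear_combination hn + 24 * (a1 * e - 3 * b1 * f + c1 * k - 3 * d1 * l) * ht
    have e2 : a * -f + b * e - c * -l + d * -k = N * B := by
      rw [hB, ha1, hb1, hc1, hd1]; linear_combination 24 * (-a1 * f + b1 * e + c1 * l - d1 * k) * ht
    have e3 : a * -k + c * e - 3 * b * -l + 3 * d * -f = N * C := by
      rw [hC, ha1, hb1, hc1, hd1]; linear_combination 24 * (-a1 * k + c1 * e + 3 * b1 * l - 3 * d1 * f) * ht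
    have e4 : a * -l + d * e + c * -f - b * -k = N * D := by
      rw [hD, ha1, hb1, hc1, hd1]; linear_combination 24 * (-a1 * l + d1 * e - c1 * f + b1 * k) * ht
    rw [e1, e2, e3, e4]
    ext i j
    fin_cases i <;> fin_cases j <;> simp [io] <;> ring
  have hNr : (N : ℝ) ≠ 0 := by exact_mod_cast hN0
  have hdet1 : (io A B C D).det = 1 := by
    have h1 := congrArg Matrix.det hprod
    rw [Matrix.det_mul, Matrix.det_smul, Matrix.det_adjugate, io_det, io_det] at h1
    have h2 : (a ^ 2 + c ^ 2 - 3 * b ^ 2 - 3 * d ^ 2 : ℤ) = N := hn'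
    have h3 : (e ^ 2 + k ^ 2 - 3 * f ^ 2 - 3 * l ^ 2 : ℤ) = N := hn
    rw [h2, h3] at h1
    simp at h1
    have h4 : (N : ℝ) * N = N ^ 2 := by ring
    rw [h4] at h1
    have h5 : (N : ℝ) ^ 2 ≠ 0 := pow_ne_zero 2 hNr
    have h6 : (N : ℝ) ^ 2 * 1 = N ^ 2 * (io A B C D).det := by rw [mul_one]; exact h1
    exact (mul_left_cancel₀ h5 h6).symm
  refine ⟨⟨io A B C D, hdet1⟩, ⟨A, B, C, D, rfl,
    ⟨t * (a1 * e - 3 * b1 * f + c1 * k - 3 * d1 * l), by rw [hA]; ring⟩, ⟨_, hB⟩, ⟨_, hC⟩, ⟨_, hD⟩⟩, ?_⟩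
  intro i j
  have h1 : (g * ⟨io A B C D, hdet1⟩ : SL2).1 = (N : ℝ)⁻¹ • ((g.1 * io a b c d) * (io e f k l).adjugate) := by
    rw [Matrix.mul_assoc, hprod, Matrix.mul_smul, smul_smul, inv_mul_cancel₀ hNr, one_smul]
    rfl
  rw [h1, Matrix.smul_apply, smul_eq_mul, abs_mul, Matrix.mul_apply]
  have hN1 : |(N : ℝ)⁻¹| ≤ 1 := by
    rw [abs_inv]
    apply inv_le_one_of_one_le₀
    have : (1 : ℤ) ≤ |N| := Int.one_le_abs hN0
    exact_mod_cast this
  calc |(N : ℝ)⁻¹| * |∑ m, (g.1 * io a b c d) i m * (io e f k l).adjugate m j|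
      ≤ 1 * |∑ m, (g.1 * io a b c d) i m * (io e f k l).adjugate m j| := by gcongr
    _ = |∑ m, (g.1 * io a b c d) i m * (io e f k l).adjugate m j| := one_mul _
    _ ≤ ∑ m, |(g.1 * io a b c d) i m * (io e f k l).adjugate m j| := Finset.abs_sum_le_sum_abs _ _
    _ ≤ ∑ m, 2 * |(io e f k l).adjugate m j| := by
        apply Finset.sum_le_sum
        intro m _
        rw [abs_mul]
        exact mul_le_mul_of_nonneg_right (hg i m) (abs_nonneg _)
    _ ≤ ∑ m, ∑ j', 2 * |(io e f k l).adjugate m j'| := by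
        apply Finset.sum_le_sum
        intro m _
        exact Finset.single_le_sum (f := fun j' => 2 * |(io e f k l).adjugate m j'|)
          (fun j' _ => by positivity) (Finset.mem_univ j)

theorem cocompact1 : ∃ R : ℝ, ∀ g : SL2, ∃ γ : SL2, Cong γ ∧ ∀ i j, |(g * γ).1 i j| ≤ R := by
  have h : ∀ κ : (Set.Icc (-8 : ℤ) 8) × (Fin 4 → ZMod 20160), ∃ R : ℝ, ∀ (a b c d : ℤ),
      nrm a b c d ≠ 0 → nrm a b c d = κ.1 → (a : ZMod 20160) = κ.2 0 → (b : ZMod 20160) = κ.2 1 →
      (c : ZMod 20160) = κ.2 2 → (d : ZMod 20160) = κ.2 3 → ∀ g : SL2,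
      (∀ i j, |(g.1 * io a b c d) i j| ≤ 2) → ∃ γ : SL2, Cong γ ∧ ∀ i j, |(g * γ).1 i j| ≤ R := by
    rintro ⟨⟨N, hN⟩, r⟩
    by_cases hN0 : N = 0
    · exact ⟨0, fun a b c d h1 h2 => absurd (h2.trans hN0) h1⟩
    · obtain ⟨R, hR⟩ := class_bound N hN0 (abs_le.2 ⟨hN.1, hN.2⟩) r
      exact ⟨R, fun a b c d _ h2 => hR a b c d h2⟩
  choose R hR using h
  have : Finite (Set.Icc (-8 : ℤ) 8) := Set.finite_coe_iff.2 (Set.finite_Icc _ _)
  obtain ⟨R0, hR0⟩ := (Set.finite_range R).bddAbove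
  refine ⟨R0, fun g => ?_⟩
  obtain ⟨a, b, c, d, hne, hb⟩ := small_multiple g
  have hnz : nrm a b c d ≠ 0 := fun hh => hne (aniso hh)
  have hle : |nrm a b c d| ≤ 8 := by
    have h1 : (g.1 * io a b c d).det = (nrm a b c d : ℝ) := by
      rw [Matrix.det_mul, g.2, one_mul, io_det]; rfl
    rw [Matrix.det_fin_two] at h1
    have h2 : |(nrm a b c d : ℝ)| ≤ 8 := by
      rw [← h1]
      have e1 := hb 0 0
      have e2 := hb 0 1
      have e3 := hb 1 0
      have e4 := hb 1 1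
      calc |(g.1 * io a b c d) 0 0 * (g.1 * io a b c d) 1 1 - (g.1 * io a b c d) 0 1 * (g.1 * io a b c d) 1 0|
          ≤ |(g.1 * io a b c d) 0 0 * (g.1 * io a b c d) 1 1| + |(g.1 * io a b c d) 0 1 * (g.1 * io a b c d) 1 0| := abs_sub _ _
        _ ≤ 2 * 2 + 2 * 2 := by
            rw [abs_mul, abs_mul]
            gcongr
        _ = 8 := by norm_num
    exact_mod_cast h2
  obtain ⟨γ, h1, h2⟩ := hR ⟨⟨nrm a b c d, (abs_le.1 hle).1, (abs_le.1 hle).2⟩,
    ![(a : ZMod 20160), b, c, d]⟩ a b c d hnz rfl rfl rfl rfl rfl g hb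
  exact ⟨γ, h1, fun i j => (h2 i j).trans (hR0 ⟨_, rfl⟩)⟩

end Part5

section Part6

open Matrix MeasureTheory Module Topology

theorem continuous_entry (i j : Fin 2) : Continuous fun A : SL2 => A.1 i j := by
  fun_prop

/-- bounded sets of `SL₂(ℝ)` with closed conditions are compact -/
theorem isCompact_bdd (R : ℝ) : IsCompact {A : SL2 | ∀ i j, |A.1 i j| ≤ R} := by
  have h1 : IsCompact (Set.pi Set.univ (fun _ : Fin 2 => Set.pi Set.univ
      (fun _ : Fin 2 => Set.Icc (-R) R))) :=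
    isCompact_univ_pi fun _ => isCompact_univ_pi fun _ => isCompact_Icc
  have h2 := (Matrix.SpecialLinearGroup.isClosedEmbedding_val (n := Fin 2) (R := ℝ)).isCompact_preimage
    (K := Set.pi Set.univ (fun _ : Fin 2 => Set.pi Set.univ (fun _ : Fin 2 => Set.Icc (-R) R))) h1
  have h3 : {A : SL2 | ∀ i j, |A.1 i j| ≤ R} = ((↑) : SL2 → Matrix (Fin 2) (Fin 2) ℝ) ⁻¹'
      (Set.pi Set.univ (fun _ : Fin 2 => Set.pi Set.univ (fun _ : Fin 2 => Set.Icc (-R) R))) := by
    ext A
    constructor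
    · intro h i _ j _
      exact abs_le.1 (h i j)
    · intro h i j
      exact abs_le.2 (h i (Set.mem_univ i) j (Set.mem_univ j))
  rw [h3]
  exact h2

theorem lam_discrete_aux (g : GG) (hg : g ∈ Lam) (h1 : ∀ i j, |g.1.1 i j - (1 : Matrix (Fin 2) (Fin 2) ℝ) i j| < 1 / 4)
    (h2 : ∀ i j, |g.2.1 i j - (1 : Matrix (Fin 2) (Fin 2) ℝ) i j| < 1 / 4) : g = 1 := by
  obtain ⟨a, b, c, d, a', b', c', d', hg1, hg2, e1, e2, e3, e4⟩ := hg
  have key : ∀ a b c d : ℤ, (∀ i j, |io a b c d i j - (1 : Matrix (Fin 2) (Fin 2) ℝ) i j| < 1 / 4) →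
      a = 1 ∧ b = 0 ∧ c = 0 ∧ d = 0 := by
    intro a b c d h
    have h00 := h 0 0
    have h01 := h 0 1
    have h10 := h 1 0
    have h11 := h 1 1
    obtain ⟨f1, f2, f3, f4⟩ := io_entries a b c d
    rw [f1] at h00
    rw [f2] at h01
    rw [f3] at h10
    rw [f4] at h11
    simp at h00 h01 h10 h11
    rw [abs_lt] at h00 h01 h10 h11
    have hs1 := s3gt
    have ia : ∀ x : ℤ, (-1 : ℝ) < x → (x : ℝ) < 1 → x = 0 := by
      intro x h1 h2
      have h3 : (-1 : ℤ) < x := by exact_mod_cast h1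
      have h4 : x < (1 : ℤ) := by exact_mod_cast h2
      omega
    have ha : a - 1 = 0 := by
      apply ia <;> push_cast <;> linarith [h00.1, h00.2, h11.1, h11.2]
    have hc : c = 0 := by
      apply ia <;> linarith [h01.1, h01.2, h10.1, h10.2]
    have hb' : |√3 * (b : ℝ)| < 1 := by
      rw [abs_lt]; constructor <;> linarith [h00.1, h00.2, h11.1, h11.2]
    have hd' : |√3 * (d : ℝ)| < 1 := by
      rw [abs_lt]; constructor <;> linarith [h01.1, h01.2, h10.1, h10.2]
    have ib : ∀ x : ℤ, |√3 * (x : ℝ)| < 1 → x = 0 := by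
      intro x hx
      rw [abs_mul, abs_of_pos s3pos] at hx
      have : |(x : ℝ)| < 1 := by nlinarith [abs_nonneg (x : ℝ)]
      rw [abs_lt] at this
      exact ia x this.1 this.2
    exact ⟨by omega, ib b hb', hc, ib d hd'⟩
  rw [hg1] at h1
  rw [hg2] at h2
  obtain ⟨rfl, rfl, rfl, rfl⟩ := key a b c d h1
  obtain ⟨rfl, rfl, rfl, rfl⟩ := key a' b' c' d' h2
  rw [io_one] at hg1 hg2
  ext1
  · exact Subtype.ext hg1
  · exact Subtype.ext hg2

theorem lam_discrete : DiscreteTopology Lam := by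
  apply discreteTopology_of_isOpen_singleton_one
  have hU : IsOpen {g : GG | (∀ i j, |g.1.1 i j - (1 : Matrix (Fin 2) (Fin 2) ℝ) i j| < 1 / 4) ∧
    (∀ i j, |g.2.1 i j - (1 : Matrix (Fin 2) (Fin 2) ℝ) i j| < 1 / 4)} := by
    simp only [Set.ofPred_and, Set.ofPred_forall]
    apply IsOpen.inter
    · refine isOpen_iInter_of_finite fun i => isOpen_iInter_of_finite fun j => ?_
      exact isOpen_lt (by fun_prop) continuous_const
    · refine isOpen_iInter_of_finite fun i => isOpen_iInter_of_finite fun j => ?_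
      exact isOpen_lt (by fun_prop) continuous_const
  convert hU.preimage (continuous_subtype_val (p := fun x => x ∈ Lam)) using 1
  ext g
  constructor
  · rintro rfl
    simp
  · rintro ⟨h1, h2⟩
    exact Subtype.ext (lam_discrete_aux g.1 g.2 h1 h2)

theorem lam_cocompact : ∃ C : Set GG, IsCompact C ∧ ∀ g : GG, ∃ γ ∈ Lam, g * γ ∈ C := by
  obtain ⟨R, hR⟩ := cocompact1
  refine ⟨{A : SL2 | ∀ i j, |A.1 i j| ≤ R} ×ˢ {A : SL2 | ∀ i j, |A.1 i j| ≤ R},
    (isCompact_bdd R).prod (isCompact_bdd R), ?_⟩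
  rintro ⟨g1, g2⟩
  obtain ⟨γ1, ⟨a, b, c, d, h1, ha, hb, hc, hd⟩, k1⟩ := hR g1
  obtain ⟨γ2, ⟨a', b', c', d', h1', ha', hb', hc', hd'⟩, k2⟩ := hR g2
  refine ⟨(γ1, γ2), ⟨a, b, c, d, a', b', c', d', h1, h1', by omega, by omega, by omega, by omega⟩,
    ⟨k1, k2⟩⟩

end Part6

section Part7

open MeasureTheory Measure Module Topology Set

set_option linter.unusedSectionVars false

section general

variable {G : Type} [Group G] [TopologicalSpace G] [IsTopologicalGroup G] [PolishSpace G]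
  [LocallyCompactSpace G] [MeasurableSpace G] [BorelSpace G]

/-- a group with trivial modular character has a right invariant Haar measure -/
theorem rightInv_of_modular (ν : Measure G) [IsHaarMeasure ν]
    (h : ∀ g : G, modularCharacterFun g = 1) : IsMulRightInvariant ν where
  map_mul_right_eq_self g := by
    have := map_right_mul_eq_modularCharacterFun_smul ν g
    rw [this, h, one_smul]

theorem exists_nhd (Γ : Subgroup G) [DiscreteTopology Γ] : ∃ V : Set G, IsOpen V ∧ (1 : G) ∈ V ∧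
    ∀ x ∈ V, ∀ y ∈ V, x⁻¹ * y ∈ Γ → x⁻¹ * y = 1 := by
  obtain ⟨U, hU, hU1⟩ := isOpen_inter_eq_singleton_of_mem_discrete (s := (Γ : Set G))
    ⟨inferInstance⟩ (one_mem Γ)
  have h1 : (1 : G) ∈ U := by
    have : (1 : G) ∈ U ∩ Γ := by rw [hU1]; rfl
    exact this.1
  have hc : Continuous fun p : G × G => p.1⁻¹ * p.2 := by fun_prop
  have h2 : (fun p : G × G => p.1⁻¹ * p.2) ⁻¹' U ∈ 𝓝 ((1 : G), (1 : G)) := by
    apply hc.continuousAt.preimage_mem_nhds
    apply hU.mem_nhds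
    simpa using h1
  obtain ⟨V, hV, W, hW, hVU⟩ := mem_nhds_prod_iff.1 h2
  obtain ⟨V', hV'V, hV'o, hV'1⟩ := mem_nhds_iff.1 hV
  obtain ⟨W', hW'W, hW'o, hW'1⟩ := mem_nhds_iff.1 hW
  refine ⟨V' ∩ W', hV'o.inter hW'o, ⟨hV'1, hW'1⟩, ?_⟩
  intro x hx y hy hxy
  have h3 : x⁻¹ * y ∈ U ∩ Γ := ⟨hVU (Set.mk_mem_prod (hV'V hx.1) (hW'W hy.2)), hxy⟩
  rw [hU1] at h3
  exact h3

theorem countable_of_discrete (Γ : Subgroup G) [DiscreteTopology Γ] : Countable Γ := by
  have : SecondCountableTopology Γ := inferInstance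
  exact TopologicalSpace.separableSpace_iff_countable.1 inferInstance

/-- a Borel fundamental domain inside a compact set -/
theorem exists_fund (Γ : Subgroup G) [DiscreteTopology Γ] (C : Set G) (hC : IsCompact C)
    (hcov : ∀ g : G, ∃ γ ∈ Γ, g * γ ∈ C) : ∃ F : Set G, MeasurableSet F ∧ F ⊆ C ∧
    ∀ x : G, ∃! γ : Γ, x * γ ∈ F := by
  have := countable_of_discrete Γ
  obtain ⟨V, hVo, hV1, hV⟩ := exists_nhd Γ
  let g : ℕ → G := TopologicalSpace.denseSeq G
  have hg : ∀ x : G, ∃ n, (g n)⁻¹ * x ∈ V := by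
    intro x
    have ho : IsOpen ((fun y : G => y⁻¹ * x) ⁻¹' V) := hVo.preimage (by fun_prop)
    obtain ⟨n, hn⟩ := (TopologicalSpace.denseRange_denseSeq G).exists_mem_open ho ⟨x, by simpa using hV1⟩
    exact ⟨n, hn⟩
  let A : ℕ → Set G := fun n => C ∩ {x | (g n)⁻¹ * x ∈ V}
  have hA : ∀ n, MeasurableSet (A n) := fun n =>
    hC.measurableSet.inter (hVo.preimage (by fun_prop : Continuous fun x : G => (g n)⁻¹ * x)).measurableSet
  let S : ℕ → Set G := fun n => ⋃ γ : Γ, (fun x => x * (γ : G)) ⁻¹' (A n)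
  have hS : ∀ n, MeasurableSet (S n) := fun n =>
    MeasurableSet.iUnion fun γ => measurable_mul_const (γ : G) (hA n)
  have hSinv : ∀ n (x : G) (γ : Γ), x * γ ∈ S n → x ∈ S n := by
    intro n x γ hx
    obtain ⟨δ, hδ⟩ := Set.mem_iUnion.1 hx
    refine Set.mem_iUnion.2 ⟨γ * δ, ?_⟩
    simpa [mul_assoc] using hδ
  refine ⟨⋃ n, (A n \ ⋃ j ∈ Finset.range n, S j), ?_, ?_, ?_⟩
  · exact MeasurableSet.iUnion fun n => (hA n).diff
      (Finset.measurableSet_biUnion _ fun j _ => hS j)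
  · intro x hx
    obtain ⟨n, hn⟩ := Set.mem_iUnion.1 hx
    exact hn.1.1
  · intro x
    have hex : ∃ n, x ∈ S n := by
      obtain ⟨γ, hγ, hxC⟩ := hcov x
      obtain ⟨n, hn⟩ := hg (x * γ)
      exact ⟨n, Set.mem_iUnion.2 ⟨⟨γ, hγ⟩, hxC, hn⟩⟩
    classical
    obtain ⟨γ, hγ⟩ := Set.mem_iUnion.1 (Nat.find_spec hex)
    refine ⟨γ, ?_, ?_⟩
    · refine Set.mem_iUnion.2 ⟨Nat.find hex, hγ, ?_⟩
      intro hcon
      obtain ⟨j, hj, hjx⟩ := Set.mem_iUnion₂.1 hcon
      exact Nat.find_min hex (Finset.mem_range.1 hj) (hSinv j x γ hjx)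
    · intro δ hδ
      obtain ⟨n, hn1, hn2⟩ := Set.mem_iUnion.1 hδ
      have hxn : x ∈ S n := Set.mem_iUnion.2 ⟨δ, hn1⟩
      have hle : Nat.find hex ≤ n := Nat.find_min' hex hxn
      have hnn : n = Nat.find hex := by
        by_contra hne
        apply hn2
        refine Set.mem_iUnion₂.2 ⟨Nat.find hex, Finset.mem_range.2 (by omega), ?_⟩
        refine Set.mem_iUnion.2 ⟨δ⁻¹ * γ, ?_⟩
        simpa [mul_assoc] using hγ
      subst hnn
      have h1 : (g (Nat.find hex))⁻¹ * (x * δ) ∈ V := hn1.2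
      have h2 : (g (Nat.find hex))⁻¹ * (x * γ) ∈ V := hγ.2
      have h3 := hV _ h1 _ h2 (by
        have : ((g (Nat.find hex))⁻¹ * (x * δ))⁻¹ * ((g (Nat.find hex))⁻¹ * (x * γ)) =
          ((δ⁻¹ * γ : Γ) : G) := by push_cast; group
        rw [this]; exact (δ⁻¹ * γ).2)
      have h4 : ((δ⁻¹ * γ : Γ) : G) = 1 := by
        rw [← h3]; push_cast; group
      have h5 : δ⁻¹ * γ = 1 := Subtype.ext h4
      exact (inv_mul_eq_one.1 h5)

theorem isFund (Γ : Subgroup G) (ν : Measure G) (F : Set G) (hF : MeasurableSet F)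
    (h : ∀ x : G, ∃! γ : Γ, x * γ ∈ F) : IsFundamentalDomain Γ.op F ν := by
  apply IsFundamentalDomain.mk' hF.nullMeasurableSet
  intro x
  obtain ⟨γ, h1, h2⟩ := h x
  refine ⟨⟨MulOpposite.op (γ : G), by simp⟩, h1, ?_⟩
  rintro ⟨δ, hδ⟩ hδF
  have h3 := h2 ⟨δ.unop, by simpa using hδ⟩ hδF
  ext
  simp [← h3]

variable (Γ : Subgroup G) (ν : Measure G) (F : Set G)

/-- the natural measure on the coset space -/
noncomputable def qm : Measure (G ⧸ Γ) := Measure.map (QuotientGroup.mk : G → G ⧸ Γ) (ν.restrict F)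

theorem meas_mk : Measurable (QuotientGroup.mk : G → G ⧸ Γ) := by
  intro s hs
  exact hs

theorem qm_finite (hF : MeasurableSet F) (C : Set G) (hC : IsCompact C) (hFC : F ⊆ C)
    [IsFiniteMeasureOnCompacts ν] : IsFiniteMeasure (qm Γ ν F) := by
  constructor
  rw [qm, Measure.map_apply (meas_mk Γ) MeasurableSet.univ, Set.preimage_univ,
    Measure.restrict_apply_univ]
  exact (measure_mono hFC).trans_lt hC.measure_lt_top

theorem qm_inv [DiscreteTopology Γ] (hF : MeasurableSet F) (h : ∀ x : G, ∃! γ : Γ, x * γ ∈ F)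
    [IsHaarMeasure ν] [IsMulRightInvariant ν] :
    SMulInvariantMeasure G (G ⧸ Γ) (qm Γ ν F) := by
  have hcl : IsClosed (Γ : Set G) := Subgroup.isClosed_of_discrete
  have hcount := countable_of_discrete Γ
  have hfd := isFund Γ ν F hF h
  have : HasFundamentalDomain Γ.op G ν := ⟨⟨F, hfd⟩⟩
  have : QuotientMeasureEqMeasurePreimage ν (qm Γ ν F) :=
    hfd.quotientMeasureEqMeasurePreimage_quotientMeasure
  exact QuotientMeasureEqMeasurePreimage.smulInvariantMeasure_quotient ν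

end general

end Part7

section Part8

open MeasureTheory Measure Module Topology Set
open scoped Pointwise

set_option linter.unusedSectionVars false

section general

variable {G : Type} [Group G] [TopologicalSpace G] [IsTopologicalGroup G] [PolishSpace G]
  [LocallyCompactSpace G] [MeasurableSpace G] [BorelSpace G]

variable (Γ : Subgroup G) [DiscreteTopology Γ] (F : Set G) (hfd : ∀ x : G, ∃! γ : Γ, x * γ ∈ F)

/-- the section of `G → G / Γ` with values in `F` -/
noncomputable def sec (x : G ⧸ Γ) : G := x.out * ((hfd x.out).choose : Γ)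

theorem sec_mem (x : G ⧸ Γ) : sec Γ F hfd x ∈ F := (hfd x.out).choose_spec.1

theorem mk_sec (x : G ⧸ Γ) : (QuotientGroup.mk (sec Γ F hfd x) : G ⧸ Γ) = x := by
  unfold sec
  rw [QuotientGroup.mk_mul_of_mem _ (Subtype.mem _)]
  exact QuotientGroup.out_eq' x

theorem sec_unique (k : G) (hk : k ∈ F) : sec Γ F hfd (QuotientGroup.mk k) = k := by
  have h1 := mk_sec Γ F hfd (QuotientGroup.mk k)
  have h2 := QuotientGroup.eq.1 h1
  have h3 := hfd (sec Γ F hfd (QuotientGroup.mk k))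
  have h4 := h3.unique (y₁ := 1) (y₂ := ⟨_, h2⟩) (by simpa using sec_mem Γ F hfd _) (by simpa using hk)
  have h5 : (1 : G) = (sec Γ F hfd (QuotientGroup.mk k))⁻¹ * k := congrArg Subtype.val h4
  rw [eq_comm, inv_mul_eq_one] at h5
  exact h5

theorem sec_meas (hF : MeasurableSet F) : Measurable (sec Γ F hfd) := by
  have := countable_of_discrete Γ
  intro B hB
  show MeasurableSet ((QuotientGroup.mk : G → G ⧸ Γ) ⁻¹' (sec Γ F hfd ⁻¹' B))
  have : (QuotientGroup.mk : G → G ⧸ Γ) ⁻¹' (sec Γ F hfd ⁻¹' B) =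
      ⋃ γ : Γ, (fun k => k * (γ : G)) ⁻¹' (F ∩ B) := by
    ext k
    simp only [mem_preimage, mem_iUnion, mem_inter_iff]
    constructor
    · intro h
      obtain ⟨γ, hγ, _⟩ := hfd k
      refine ⟨γ, hγ, ?_⟩
      have h1 := sec_unique Γ F hfd (k * γ) hγ
      rw [QuotientGroup.mk_mul_of_mem _ γ.2] at h1
      rw [← h1]; exact h
    · rintro ⟨γ, h1, h2⟩
      have h3 := sec_unique Γ F hfd (k * γ) h1
      rw [QuotientGroup.mk_mul_of_mem _ γ.2] at h3
      rw [h3]; exact h2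
  rw [this]
  exact MeasurableSet.iUnion fun γ => measurable_mul_const (γ : G) (hF.inter hB)

/-- the kernel of the operator of `f` -/
noncomputable def kern (f : G → ℝ) (x y : G ⧸ Γ) : ℝ :=
  ∑' γ : Γ, f (sec Γ F hfd y * γ * (sec Γ F hfd x)⁻¹)

theorem kern_mk (f : G → ℝ) (h k : G) : kern Γ F hfd f (QuotientGroup.mk h) (QuotientGroup.mk k) =
    ∑' γ : Γ, f (k * γ * h⁻¹) := by
  unfold kern
  have h1 := QuotientGroup.eq.1 (mk_sec Γ F hfd (QuotientGroup.mk h))
  have h2 := QuotientGroup.eq.1 (mk_sec Γ F hfd (QuotientGroup.mk k))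
  set a := sec Γ F hfd (QuotientGroup.mk h)
  set b := sec Γ F hfd (QuotientGroup.mk k)
  let e : Γ ≃ Γ := (Equiv.mulLeft (⟨_, h2⟩ : Γ)).trans (Equiv.mulRight (⟨_, h1⟩ : Γ)⁻¹)
  rw [← e.tsum_eq]
  apply tsum_congr
  intro γ
  congr 1
  simp only [e, Equiv.trans_apply, Equiv.coe_mulLeft, Equiv.coe_mulRight]
  push_cast
  group

variable (C : Set G) (hC : IsCompact C) (hFC : F ⊆ C)

/-- the finitely many lattice elements which matter for functions supported in `D` -/
theorem fin_lat (D : Set G) (hD : IsCompact D) (hC : IsCompact C) :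
    {γ : Γ | (γ : G) ∈ C⁻¹ * D * C}.Finite := by
  have h1 : IsCompact (C⁻¹ * D * C) := (hC.inv.mul hD).mul hC
  have h2 := Subgroup.tendsto_coe_cofinite_of_discrete Γ ⟨inferInstance⟩
  have h3 := h2 (h1.compl_mem_cocompact)
  rw [Filter.mem_map, Filter.mem_cofinite] at h3
  convert h3 using 1
  ext γ
  simp

theorem kern_eq (hFC : F ⊆ C) (f : G → ℝ) (D : Set G) (hD : IsCompact D) (hf : ∀ g, g ∉ D → f g = 0)
    (x y : G ⧸ Γ) : kern Γ F hfd f x y = ∑ γ ∈ (fin_lat Γ C D hD hC).toFinset,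
      f (sec Γ F hfd y * γ * (sec Γ F hfd x)⁻¹) := by
  unfold kern
  apply tsum_eq_sum
  intro γ hγ
  apply hf
  intro hcon
  apply hγ
  rw [Set.Finite.mem_toFinset]
  refine Set.mem_mul.2 ⟨(sec Γ F hfd y)⁻¹ * (sec Γ F hfd y * γ * (sec Γ F hfd x)⁻¹), 
    Set.mul_mem_mul (Set.inv_mem_inv.2 (hFC (sec_mem Γ F hfd y))) hcon, _, 
    hFC (sec_mem Γ F hfd x), ?_⟩
  group

theorem kern_meas (hF : MeasurableSet F) (f : G → ℝ) (hfm : Measurable f) (D : Set G)
    (hD : IsCompact D) (hf : ∀ g, g ∉ D → f g = 0) (hC : IsCompact C) (hFC : F ⊆ C) :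
    Measurable (fun p : (G ⧸ Γ) × (G ⧸ Γ) => kern Γ F hfd f p.1 p.2) := by
  have : (fun p : (G ⧸ Γ) × (G ⧸ Γ) => kern Γ F hfd f p.1 p.2) = fun p =>
      ∑ γ ∈ (fin_lat Γ C D hD hC).toFinset,
      f (sec Γ F hfd p.2 * γ * (sec Γ F hfd p.1)⁻¹) := by
    ext p
    exact kern_eq Γ F hfd C hC hFC f D hD hf p.1 p.2
  rw [this]
  have hs := sec_meas Γ F hfd hF
  apply Finset.measurable_sum
  intro γ _
  apply hfm.comp
  exact ((hs.comp measurable_snd).mul_const _).mul (hs.comp measurable_fst).inv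

theorem kern_bdd (f : G → ℝ) (M : ℝ) (hM : ∀ g, |f g| ≤ M) (D : Set G)
    (hD : IsCompact D) (hf : ∀ g, g ∉ D → f g = 0) (hC : IsCompact C) (hFC : F ⊆ C) (x y : G ⧸ Γ) :
    |kern Γ F hfd f x y| ≤ (fin_lat Γ C D hD hC).toFinset.card * M := by
  rw [kern_eq Γ F hfd C hC hFC f D hD hf x y]
  refine (Finset.abs_sum_le_sum_abs _ _).trans ?_
  rw [← nsmul_eq_mul]
  exact Finset.sum_le_card_nsmul _ _ _ fun γ _ => hM _

end general

end Part8

section Part9

open MeasureTheory Measure Module Topology Set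
open scoped Pointwise ENNReal

set_option linter.unusedSectionVars false

section general

variable {G : Type} [Group G] [TopologicalSpace G] [IsTopologicalGroup G] [PolishSpace G]
  [LocallyCompactSpace G] [MeasurableSpace G] [BorelSpace G]

variable (Γ : Subgroup G) [DiscreteTopology Γ] (F : Set G) (hfd : ∀ x : G, ∃! γ : Γ, x * γ ∈ F)
  (ν : Measure G) [IsHaarMeasure ν] [IsMulRightInvariant ν] (hF : MeasurableSet F)

include hF hfd in
theorem lint_tsum (Φ : G → ℝ≥0∞) : ∫⁻ g, Φ g ∂ν = ∑' γ : Γ, ∫⁻ x in F, Φ (x * γ) ∂ν := by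
  have := countable_of_discrete Γ
  have h := isFund Γ ν F hF hfd
  have : Countable Γ.op := (Subgroup.equivOp Γ).symm.injective.countable
  rw [h.lintegral_eq_tsum'', ← (Subgroup.equivOp Γ).tsum_eq]
  rfl

include hF hfd in
theorem int_tsum (Φ : G → ℂ) (hΦ : Integrable Φ ν) : ∫ g, Φ g ∂ν = ∑' γ : Γ, ∫ x in F, Φ (x * γ) ∂ν := by
  have := countable_of_discrete Γ
  have h := isFund Γ ν F hF hfd
  have : Countable Γ.op := (Subgroup.equivOp Γ).symm.injective.countable
  rw [h.integral_eq_tsum'' Φ hΦ, ← (Subgroup.equivOp Γ).tsum_eq]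
  rfl

theorem f_zero (C : Set G) (hC : IsCompact C) (hFC : F ⊆ C) (f : G → ℝ) (D : Set G)
    (hD : IsCompact D) (hf : ∀ g, g ∉ D → f g = 0) (h : G) (hh : h ∈ C) (k : G) (hk : k ∈ F)
    (γ : Γ) (hγ : γ ∉ (fin_lat Γ C D hD hC).toFinset) : f (k * γ * h⁻¹) = 0 := by
  apply hf
  intro hcon
  apply hγ
  rw [Set.Finite.mem_toFinset]
  refine Set.mem_mul.2 ⟨k⁻¹ * (k * γ * h⁻¹), 
    Set.mul_mem_mul (Set.inv_mem_inv.2 (hFC hk)) hcon, _, hh, ?_⟩
  group

include hF in
theorem unfold_int (C : Set G) (hC : IsCompact C) (hFC : F ⊆ C) (f : G → ℝ) (hfm : Measurable f)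
    (M : ℝ) (hM : ∀ g, |f g| ≤ M) (D : Set G)
    (hD : IsCompact D) (hf : ∀ g, g ∉ D → f g = 0) (v : G ⧸ Γ → ℂ) (hvm : Measurable v)
    (hv : Integrable v (qm Γ ν F)) (x : G ⧸ Γ) :
    Integrable (fun g => (f g : ℂ) * v (g • x)) ν ∧
    ∫ g, (f g : ℂ) * v (g • x) ∂ν = ∫ y, (kern Γ F hfd f x y : ℂ) * v y ∂(qm Γ ν F) := by
  set T := (fin_lat Γ C D hD hC).toFinset with hT
  set h := sec Γ F hfd x with hh
  have hx : (QuotientGroup.mk h : G ⧸ Γ) = x := mk_sec Γ F hfd x
  have hhC : h ∈ C := hFC (sec_mem Γ F hfd x)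
  let Ψ : G → ℂ := fun k => (f (k * h⁻¹) : ℂ) * v (QuotientGroup.mk k)
  have hΨm : Measurable Ψ := by
    apply Measurable.mul
    · exact Complex.measurable_ofReal.comp (hfm.comp (measurable_mul_const _))
    · exact hvm.comp (meas_mk Γ)
  have hM0 : 0 ≤ M := (abs_nonneg _).trans (hM 1)
  have hvF : Integrable (fun k : G => v (QuotientGroup.mk k)) (ν.restrict F) := by
    have := (integrable_map_measure (f := (QuotientGroup.mk : G → G ⧸ Γ)) (μ := ν.restrict F)
      (g := v) hvm.aestronglyMeasurable (meas_mk Γ).aemeasurable).1 hv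
    exact this
  have hmkγ : ∀ (k : G) (γ : Γ), (QuotientGroup.mk (k * γ) : G ⧸ Γ) = QuotientGroup.mk k :=
    fun k γ => QuotientGroup.mk_mul_of_mem _ γ.2
  have hzero : ∀ γ ∉ T, ∀ k ∈ F, Ψ (k * γ) = 0 := by
    intro γ hγ k hk
    simp only [Ψ]
    rw [f_zero Γ F C hC hFC f D hD hf h hhC k hk γ hγ]
    simp
  have hpiece : ∀ γ : Γ, Integrable (fun k : G => Ψ (k * γ)) (ν.restrict F) := by
    intro γ
    have : (fun k : G => Ψ (k * γ)) = fun k => (f (k * γ * h⁻¹) : ℂ) * v (QuotientGroup.mk k) := by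
      ext k; simp only [Ψ]; rw [hmkγ]
    rw [this]
    refine hvF.bdd_mul (c := M) ?_ ?_
    · apply Measurable.aestronglyMeasurable
      exact Complex.measurable_ofReal.comp (hfm.comp (by fun_prop))
    · filter_upwards with k
      rw [Complex.norm_real, Real.norm_eq_abs]
      exact hM _
  have hΨi : Integrable Ψ ν := by
    refine ⟨hΨm.aestronglyMeasurable, ?_⟩
    rw [HasFiniteIntegral, lint_tsum Γ F hfd ν hF]
    rw [tsum_eq_sum (s := T)]
    · rw [ENNReal.sum_lt_top]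
      intro γ _
      exact (hpiece γ).2
    · intro γ hγ
      rw [setLIntegral_congr_fun (g := fun _ => 0) hF]
      · simp
      · intro k hk
        simp only
        rw [hzero γ hγ k hk]; simp
  have hcomp : (fun g => (f g : ℂ) * v (g • x)) = fun g => Ψ (g * h) := by
    ext g
    simp only [Ψ]
    rw [mul_inv_cancel_right, ← hx]
    rfl
  have hint : ∫ g, (f g : ℂ) * v (g • x) ∂ν = ∫ g, Ψ g ∂ν := by
    rw [hcomp]
    exact integral_mul_right_eq_self Ψ h
  refine ⟨?_, ?_⟩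
  · rw [hcomp]
    exact hΨi.comp_mul_right h
  rw [hint, int_tsum Γ F hfd ν hF Ψ hΨi, tsum_eq_sum (s := T)]
  · rw [← integral_finset_sum _ (fun γ _ => hpiece γ)]
    unfold qm
    have hkm : Measurable (fun y => (kern Γ F hfd f x y : ℂ) * v y) := by
      apply Measurable.mul _ hvm
      apply Complex.measurable_ofReal.comp
      exact (kern_meas Γ F hfd C hF f hfm D hD hf hC hFC).comp (measurable_const.prodMk measurable_id)
    rw [integral_map (meas_mk Γ).aemeasurable hkm.aestronglyMeasurable]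
    apply setIntegral_congr_fun hF
    intro k hk
    simp only
    rw [kern_eq Γ F hfd C hC hFC f D hD hf, sec_unique Γ F hfd k hk]
    push_cast
    rw [Finset.sum_mul]
    apply Finset.sum_congr rfl
    intro γ _
    simp only [Ψ]
    rw [hmkγ]
  · intro γ hγ
    rw [setIntegral_congr_fun (g := fun _ => 0) hF]
    · simp
    · intro k hk
      exact hzero γ hγ k hk

end general

end Part9

section Part10

open MeasureTheory Measure Module Topology Set
open scoped Pointwise ENNReal InnerProductSpace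

set_option linter.unusedSectionVars false

section hilbert

variable {H : Type*} [NormedAddCommGroup H] [InnerProductSpace ℂ H] [CompleteSpace H] {ι : Type*}

theorem parseval_enorm (e : HilbertBasis ι ℂ H) (w : H) : ∑' i, ‖⟪e i, w⟫_ℂ‖ₑ ^ 2 = ‖w‖ₑ ^ 2 := by
  have h := e.hasSum_inner_mul_inner w w
  have h1 : HasSum (fun i => ‖⟪e i, w⟫_ℂ‖ ^ 2) (‖w‖ ^ 2) := by
    have h2 := Complex.hasSum_re h
    have e1 : (fun i => (⟪w, e i⟫_ℂ * ⟪e i, w⟫_ℂ).re) = fun i => ‖⟪e i, w⟫_ℂ‖ ^ 2 := by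
      ext i
      rw [← inner_conj_symm w (e i), mul_comm, Complex.mul_conj, Complex.ofReal_re,
        Complex.normSq_eq_norm_sq]
    have e2 : (⟪w, w⟫_ℂ).re = ‖w‖ ^ 2 := by
      rw [inner_self_eq_norm_sq_to_K]
      norm_cast
    rw [e1, e2] at h2
    exact h2
  have h3 := h1.tsum_eq
  have h4 : ∀ i, ‖⟪e i, w⟫_ℂ‖ₑ ^ 2 = ENNReal.ofReal (‖⟪e i, w⟫_ℂ‖ ^ 2) := by
    intro i
    rw [ENNReal.ofReal_pow (norm_nonneg _), ofReal_norm]
  simp_rw [h4]
  rw [← ENNReal.ofReal_tsum_of_nonneg (fun i => by positivity) h1.summable, h3,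
    ENNReal.ofReal_pow (norm_nonneg _), ofReal_norm]

theorem countable_basis [TopologicalSpace.SeparableSpace H] (e : HilbertBasis ι ℂ H) :
    Countable ι := by
  refine Pairwise.countable_of_isOpen_disjoint (s := fun i => Metric.ball (e i) (1 / 2))
    ?_ (fun i => Metric.isOpen_ball) (fun i => ⟨e i, Metric.mem_ball_self (by norm_num)⟩)
  intro i j hij
  apply Metric.ball_disjoint_ball
  rw [dist_eq_norm]
  have h1 : ‖e i - e j‖ ^ 2 = 2 := by
    have h2 := norm_sub_sq (𝕜 := ℂ) (e i) (e j)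
    rw [e.orthonormal.norm_eq_one i, e.orthonormal.norm_eq_one j,
      e.orthonormal.inner_eq_zero hij] at h2
    rw [h2]; simp; norm_num
  nlinarith [norm_nonneg (e i - e j)]

end hilbert

theorem enorm_sq_lp {α : Type*} [MeasurableSpace α] {μ : Measure α} (w : Lp ℂ 2 μ) :
    ‖w‖ₑ ^ 2 = ∫⁻ x, ‖w x‖ₑ ^ 2 ∂μ := by
  rw [Lp.enorm_def, eLpNorm_eq_lintegral_rpow_enorm_toReal (by norm_num) (by norm_num)]
  rw [← ENNReal.rpow_natCast, ← ENNReal.rpow_mul]
  simp


section general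

variable {G : Type} [Group G] [TopologicalSpace G] [IsTopologicalGroup G] [PolishSpace G]
  [LocallyCompactSpace G] [MeasurableSpace G] [BorelSpace G]

variable {Γ : Subgroup G} (μ : Measure (G ⧸ Γ)) [SMulInvariantMeasure G (G ⧸ Γ) μ]

theorem shift_coe (g : G) (v : Lp ℂ 2 μ) : shift μ g⁻¹ v =ᵐ[μ] fun x => v (g • x) := by
  have := Lp.coeFn_compMeasurePreserving v (measurePreserving_smul (g⁻¹)⁻¹ μ)
  refine this.trans ?_
  rw [inv_inv]
  rfl

theorem inner_shift (g : G) (u v : Lp ℂ 2 μ) :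
    ⟪u, shift μ g⁻¹ v⟫_ℂ = ∫ x, (starRingEnd ℂ) (u x) * v (g • x) ∂μ := by
  rw [L2.inner_def]
  apply integral_congr_ae
  filter_upwards [shift_coe μ g v] with x hx
  rw [hx, RCLike.inner_apply, mul_comm]

variable [DiscreteTopology Γ]

theorem smul_meas (F : Set G) (hfd : ∀ x : G, ∃! γ : Γ, x * γ ∈ F) (hF : MeasurableSet F) :
    Measurable (fun p : G × (G ⧸ Γ) => p.1 • p.2) := by
  have : (fun p : G × (G ⧸ Γ) => p.1 • p.2) = fun p =>
      (QuotientGroup.mk (p.1 * sec Γ F hfd p.2) : G ⧸ Γ) := by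
    ext p
    conv_lhs => rw [← mk_sec Γ F hfd p.2]
    rfl
  rw [this]
  exact (meas_mk Γ).comp (measurable_fst.mul ((sec_meas Γ F hfd hF).comp measurable_snd))

theorem sq_le_aux (a b : ℝ≥0∞) : a * b ≤ a ^ 2 + b ^ 2 := by
  rcases le_total a b with h | h
  · calc a * b ≤ b * b := by gcongr
      _ = b ^ 2 := (sq b).symm
      _ ≤ a ^ 2 + b ^ 2 := le_add_self
  · calc a * b ≤ a * a := by gcongr
      _ = a ^ 2 := (sq a).symm
      _ ≤ a ^ 2 + b ^ 2 := le_self_add

theorem lint_f (ν : Measure G) [IsFiniteMeasureOnCompacts ν] (f : G → ℝ)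
    (M : ℝ) (hM : ∀ g, |f g| ≤ M) (D : Set G)
    (hD : IsCompact D) (hf : ∀ g, g ∉ D → f g = 0) : ∫⁻ g, ‖(f g : ℂ)‖ₑ ∂ν < ∞ := by
  calc ∫⁻ g, ‖(f g : ℂ)‖ₑ ∂ν ≤ ∫⁻ g, D.indicator (fun _ => ENNReal.ofReal M) g ∂ν := by
        apply lintegral_mono
        intro g
        by_cases hg : g ∈ D
        · simp only [Set.indicator_of_mem hg]
          rw [← ofReal_norm, Complex.norm_real, Real.norm_eq_abs]
          exact ENNReal.ofReal_le_ofReal (hM g)
        · simp [Set.indicator_of_notMem hg, hf g hg]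
    _ = ENNReal.ofReal M * ν D := by
        rw [lintegral_indicator_const hD.measurableSet]
    _ < ∞ := ENNReal.mul_lt_top ENNReal.ofReal_lt_top hD.measure_lt_top

theorem integrable_big (ν : Measure G) [SFinite ν] [IsFiniteMeasureOnCompacts ν] [SFinite μ]
    (F : Set G) (hfd : ∀ x : G, ∃! γ : Γ, x * γ ∈ F) (hF : MeasurableSet F)
    (f : G → ℝ) (hfm : Measurable f)
    (M : ℝ) (hM : ∀ g, |f g| ≤ M) (D : Set G)
    (hD : IsCompact D) (hf : ∀ g, g ∉ D → f g = 0) (u v : Lp ℂ 2 μ) :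
    Integrable (Function.uncurry fun (g : G) (x : G ⧸ Γ) =>
      (f g : ℂ) * ((starRingEnd ℂ) (u x) * v (g • x))) (ν.prod μ) := by
  have hum : Measurable u := (Lp.stronglyMeasurable u).measurable
  have hvm : Measurable v := (Lp.stronglyMeasurable v).measurable
  have hmeas : Measurable (Function.uncurry fun (g : G) (x : G ⧸ Γ) =>
      (f g : ℂ) * ((starRingEnd ℂ) (u x) * v (g • x))) := by
    apply Measurable.mul
    · exact Complex.measurable_ofReal.comp (hfm.comp measurable_fst)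
    · apply Measurable.mul
      · exact (Complex.continuous_conj.measurable).comp (hum.comp measurable_snd)
      · exact hvm.comp (smul_meas F hfd hF)
  refine ⟨hmeas.aestronglyMeasurable, ?_⟩
  rw [HasFiniteIntegral, lintegral_prod _ hmeas.enorm.aemeasurable]
  calc ∫⁻ g, ∫⁻ x, ‖Function.uncurry (fun (g : G) (x : G ⧸ Γ) =>
          (f g : ℂ) * ((starRingEnd ℂ) (u x) * v (g • x))) (g, x)‖ₑ ∂μ ∂ν
      ≤ ∫⁻ g, ‖(f g : ℂ)‖ₑ * (‖u‖ₑ ^ 2 + ‖v‖ₑ ^ 2) ∂ν := by
        apply lintegral_mono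
        intro g
        simp only [Function.uncurry_apply_pair, enorm_mul]
        rw [lintegral_const_mul' _ _ enorm_ne_top]
        gcongr
        calc ∫⁻ x, ‖(starRingEnd ℂ) (u x)‖ₑ * ‖v (g • x)‖ₑ ∂μ
            ≤ ∫⁻ x, (‖u x‖ₑ ^ 2 + ‖v (g • x)‖ₑ ^ 2) ∂μ := by
              apply lintegral_mono
              intro x
              have : ‖(starRingEnd ℂ) (u x)‖ₑ = ‖u x‖ₑ := by
                rw [← ofReal_norm, ← ofReal_norm, RCLike.norm_conj]
              simp only
              rw [this]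
              exact sq_le_aux _ _
          _ = ∫⁻ x, ‖u x‖ₑ ^ 2 ∂μ + ∫⁻ x, ‖v (g • x)‖ₑ ^ 2 ∂μ := by
              rw [lintegral_add_left (hum.enorm.pow_const 2)]
          _ = ‖u‖ₑ ^ 2 + ‖v‖ₑ ^ 2 := by
              rw [enorm_sq_lp, enorm_sq_lp]
              congr 1
              exact (measurePreserving_smul g μ).lintegral_comp (f := fun x => ‖v x‖ₑ ^ 2)
                (hvm.enorm.pow_const 2)
    _ = (∫⁻ g, ‖(f g : ℂ)‖ₑ ∂ν) * (‖u‖ₑ ^ 2 + ‖v‖ₑ ^ 2) := by
        rw [lintegral_mul_const'']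
        exact (Complex.measurable_ofReal.comp hfm).enorm.aemeasurable
    _ < ∞ := by
        apply ENNReal.mul_lt_top (lint_f ν f M hM D hD hf)
        exact ENNReal.add_lt_top.2 ⟨by simp, by simp⟩

end general

end Part10

section Part11

open MeasureTheory Measure Module Topology Set
open scoped Pointwise ENNReal InnerProductSpace

set_option linter.unusedSectionVars false

section general

variable {G : Type} [Group G] [TopologicalSpace G] [IsTopologicalGroup G] [PolishSpace G]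
  [LocallyCompactSpace G] [MeasurableSpace G] [BorelSpace G]

variable {Γ : Subgroup G} (ν : Measure G)

/-- matrix coefficients of the operator of `f` -/
noncomputable def Bf (μ : Measure (G ⧸ Γ)) [SMulInvariantMeasure G (G ⧸ Γ) μ] (f : G → ℝ)
    (u v : Lp ℂ 2 μ) : ℂ := ∫ g, (f g : ℂ) * ⟪u, shift μ g⁻¹ v⟫_ℂ ∂ν

variable [DiscreteTopology Γ] [IsHaarMeasure ν] [IsMulRightInvariant ν]

variable (F : Set G) (hfd : ∀ x : G, ∃! γ : Γ, x * γ ∈ F) (hF : MeasurableSet F)
  (C : Set G) (hC : IsCompact C) (hFC : F ⊆ C) (f : G → ℝ) (hfm : Measurable f)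
  (M : ℝ) (hM : ∀ g, |f g| ≤ M) (D : Set G) (hD : IsCompact D) (hf : ∀ g, g ∉ D → f g = 0)
  [IsFiniteMeasure (qm Γ ν F)]

/-- the integral operator of the kernel -/
noncomputable def Tk (v : G ⧸ Γ → ℂ) (x : G ⧸ Γ) : ℂ :=
  ∫ y, (kern Γ F hfd f x y : ℂ) * v y ∂(qm Γ ν F)

include hF hfm hD hf hC hFC in
theorem Tk_meas (v : G ⧸ Γ → ℂ) (hv : Measurable v) : StronglyMeasurable (Tk ν F hfd f v) := by
  have h1 : StronglyMeasurable (fun p : (G ⧸ Γ) × (G ⧸ Γ) => (kern Γ F hfd f p.1 p.2 : ℂ) * v p.2) := by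
    apply Measurable.stronglyMeasurable
    apply Measurable.mul
    · exact Complex.measurable_ofReal.comp (kern_meas Γ F hfd C hF f hfm D hD hf hC hFC)
    · exact hv.comp measurable_snd
  exact h1.integral_prod_right'

include hM hD hf hC hFC in
theorem Tk_bdd (v : G ⧸ Γ → ℂ) (hv : Integrable v (qm Γ ν F)) (x : G ⧸ Γ) :
    ‖Tk ν F hfd f v x‖ ≤ (fin_lat Γ C D hD hC).toFinset.card * M * ∫ y, ‖v y‖ ∂(qm Γ ν F) := by
  unfold Tk
  refine (norm_integral_le_integral_norm _).trans ?_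
  rw [← integral_const_mul]
  have hM0 : 0 ≤ M := (abs_nonneg _).trans (hM 1)
  apply integral_mono_of_nonneg
  · filter_upwards with y; positivity
  · exact hv.norm.const_mul _
  · filter_upwards with y
    rw [norm_mul, Complex.norm_real, Real.norm_eq_abs]
    exact mul_le_mul_of_nonneg_right (kern_bdd Γ F hfd C f M hM D hD hf hC hFC x y) (norm_nonneg _)

include hF hfm hM hD hf hC hFC in
theorem Tk_memLp (v : Lp ℂ 2 (qm Γ ν F)) : MemLp (Tk ν F hfd f v) 2 (qm Γ ν F) := by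
  have hvm : Measurable v := (Lp.stronglyMeasurable v).measurable
  have hvi : Integrable v (qm Γ ν F) := (Lp.memLp v).integrable one_le_two
  exact MemLp.of_bound (Tk_meas ν F hfd hF C hC hFC f hfm D hD hf v hvm).aestronglyMeasurable _
    (Filter.Eventually.of_forall (Tk_bdd ν F hfd C hC hFC f M hM D hD hf v hvi))

variable [SMulInvariantMeasure G (G ⧸ Γ) (qm Γ ν F)]

include hF hfm hM hD hf hC hFC in
theorem Bf_eq (u v : Lp ℂ 2 (qm Γ ν F)) : Bf ν (qm Γ ν F) f u v =
    ⟪u, (Tk_memLp ν F hfd hF C hC hFC f hfm M hM D hD hf v).toLp _⟫_ℂ := by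
  have hvm : Measurable v := (Lp.stronglyMeasurable v).measurable
  have hvi : Integrable v (qm Γ ν F) := (Lp.memLp v).integrable one_le_two
  unfold Bf
  simp_rw [inner_shift, ← integral_const_mul]
  rw [integral_integral_swap (integrable_big (qm Γ ν F) ν F hfd hF f hfm M hM D hD hf u v)]
  rw [L2.inner_def]
  apply integral_congr_ae
  filter_upwards [MemLp.coeFn_toLp (Tk_memLp ν F hfd hF C hC hFC f hfm M hM D hD hf v)] with x hx
  rw [hx, RCLike.inner_apply]
  unfold Tk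
  rw [← (unfold_int Γ F hfd ν hF C hC hFC f hfm M hM D hD hf v hvm hvi x).2, mul_comm,
    ← integral_const_mul]
  apply integral_congr_ae
  filter_upwards with g
  ring

/-- the Hilbert-Schmidt norm squared -/
noncomputable def HS {ι : Type*} (μ : Measure (G ⧸ Γ)) [SMulInvariantMeasure G (G ⧸ Γ) μ] (f : G → ℝ)
    (e : HilbertBasis ι ℂ (Lp ℂ 2 μ)) : ℝ≥0∞ := ∑' j, ∑' i, ‖Bf ν μ f (e i) (e j)‖ₑ ^ 2

include hF hfm hM hD hf hC hFC in
theorem HS_eq {ι : Type*} (e : HilbertBasis ι ℂ (Lp ℂ 2 (qm Γ ν F))) : HS ν (qm Γ ν F) f e =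
    ∫⁻ x, ∫⁻ y, ‖(kern Γ F hfd f x y : ℂ)‖ₑ ^ 2 ∂(qm Γ ν F) ∂(qm Γ ν F) := by
  have hsep : TopologicalSpace.SeparableSpace (Lp ℂ 2 (qm Γ ν F)) := by
    have hcl : IsClosed (Γ : Set G) := Subgroup.isClosed_of_discrete
    have hb : BorelSpace (G ⧸ Γ) := CosetSpace.borelSpace
    have hcg : MeasurableSpace.CountablyGenerated (G ⧸ Γ) := inferInstance
    have hf2 : Fact ((2 : ℝ≥0∞) ≠ ∞) := ⟨by simp⟩
    have : SecondCountableTopology (Lp ℂ 2 (qm Γ ν F)) := inferInstance
    infer_instance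
  have hcι : Countable ι := countable_basis e
  have h1 : ∀ j, ∑' i, ‖Bf ν (qm Γ ν F) f (e i) (e j)‖ₑ ^ 2 =
      ∫⁻ x, ‖Tk ν F hfd f (e j) x‖ₑ ^ 2 ∂(qm Γ ν F) := by
    intro j
    simp_rw [Bf_eq ν F hfd hF C hC hFC f hfm M hM D hD hf]
    rw [parseval_enorm, enorm_sq_lp]
    apply lintegral_congr_ae
    filter_upwards [MemLp.coeFn_toLp (Tk_memLp ν F hfd hF C hC hFC f hfm M hM D hD hf (e j))] with x hx
    rw [hx]
  unfold HS
  simp_rw [h1]
  rw [← lintegral_tsum]
  · apply lintegral_congr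
    intro x
    have hkm : Measurable (fun y => (kern Γ F hfd f x y : ℂ)) := by
      apply Complex.measurable_ofReal.comp
      exact (kern_meas Γ F hfd C hF f hfm D hD hf hC hFC).comp (measurable_const.prodMk measurable_id)
    have hk : MemLp (fun y => (kern Γ F hfd f x y : ℂ)) 2 (qm Γ ν F) := by
      refine MemLp.of_bound hkm.aestronglyMeasurable ((fin_lat Γ C D hD hC).toFinset.card * M)
        (Filter.Eventually.of_forall fun y => ?_)
      rw [Complex.norm_real, Real.norm_eq_abs]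
      exact kern_bdd Γ F hfd C f M hM D hD hf hC hFC x y
    have h2 : ∀ j, Tk ν F hfd f (e j) x = ⟪hk.toLp _, e j⟫_ℂ := by
      intro j
      rw [L2.inner_def]
      unfold Tk
      apply integral_congr_ae
      filter_upwards [MemLp.coeFn_toLp hk] with y hy
      rw [hy, RCLike.inner_apply]
      simp [mul_comm]
    have h3 : ∀ j, ‖Tk ν F hfd f (e j) x‖ₑ ^ 2 = ‖⟪e j, hk.toLp _⟫_ℂ‖ₑ ^ 2 := by
      intro j
      rw [h2, ← inner_conj_symm]
      congr 1
      rw [← ofReal_norm, ← ofReal_norm, RCLike.norm_conj]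
    simp_rw [h3]
    rw [parseval_enorm, enorm_sq_lp]
    apply lintegral_congr_ae
    filter_upwards [MemLp.coeFn_toLp hk] with y hy
    rw [hy]
  · intro j
    have hm := Tk_meas ν F hfd hF C hC hFC f hfm D hD hf (e j) (Lp.stronglyMeasurable (e j)).measurable
    exact (hm.measurable.enorm.pow_const 2).aemeasurable

end general

end Part11

section Part12

open MeasureTheory Measure Module Topology Set
open scoped Pointwise ENNReal InnerProductSpace

set_option linter.unusedSectionVars false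

section general

variable {G : Type} [Group G] [TopologicalSpace G] [IsTopologicalGroup G] [PolishSpace G]
  [LocallyCompactSpace G] [MeasurableSpace G] [BorelSpace G]

variable {Γ : Subgroup G} [DiscreteTopology Γ] (ν : Measure G) [IsHaarMeasure ν] [IsMulRightInvariant ν]

variable (F : Set G) (hfd : ∀ x : G, ∃! γ : Γ, x * γ ∈ F) (hF : MeasurableSet F)
  (C : Set G) (hC : IsCompact C) (hFC : F ⊆ C)

include hF hfd in
theorem qm_pos (O : Set (G ⧸ Γ)) (hO : IsOpen O) (hne : O.Nonempty) : qm Γ ν F O ≠ 0 := by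
  intro h0
  have hOm : MeasurableSet O := by
    show MeasurableSet ((QuotientGroup.mk : G → G ⧸ Γ) ⁻¹' O)
    exact (hO.preimage QuotientGroup.continuous_mk).measurableSet
  have hPm : MeasurableSet ((QuotientGroup.mk : G → G ⧸ Γ) ⁻¹' O) := hOm
  have h1 : ν ((QuotientGroup.mk : G → G ⧸ Γ) ⁻¹' O) ≠ 0 := by
    apply IsOpen.measure_ne_zero ν (hO.preimage QuotientGroup.continuous_mk)
    obtain ⟨x, hx⟩ := hne
    obtain ⟨g, rfl⟩ := QuotientGroup.mk_surjective x
    exact ⟨g, hx⟩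
  apply h1
  rw [← lintegral_indicator_one hPm, lint_tsum Γ F hfd ν hF]
  rw [ENNReal.tsum_eq_zero]
  intro γ
  have h2 : ∀ x : G, ((QuotientGroup.mk : G → G ⧸ Γ) ⁻¹' O).indicator (1 : G → ℝ≥0∞) (x * γ) =
      ((QuotientGroup.mk : G → G ⧸ Γ) ⁻¹' O).indicator (1 : G → ℝ≥0∞) x := by
    intro x
    have : (x * (γ : G)) ∈ ((QuotientGroup.mk : G → G ⧸ Γ) ⁻¹' O) ↔
        x ∈ ((QuotientGroup.mk : G → G ⧸ Γ) ⁻¹' O) := by
      rw [mem_preimage, mem_preimage, QuotientGroup.mk_mul_of_mem _ γ.2]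
    by_cases hx : x ∈ ((QuotientGroup.mk : G → G ⧸ Γ) ⁻¹' O)
    · rw [indicator_of_mem hx, indicator_of_mem (this.2 hx)]; rfl
    · rw [indicator_of_notMem hx, indicator_of_notMem (fun hh => hx (this.1 hh))]
  simp_rw [h2]
  rw [lintegral_indicator_one hPm, Measure.restrict_apply hPm]
  rw [qm, Measure.map_apply (meas_mk Γ) hOm, Measure.restrict_apply hPm] at h0
  exact h0

include hC hFC in
theorem kern_nonneg (f : G → ℝ) (h0 : ∀ g, 0 ≤ f g) (x y : G ⧸ Γ) : 0 ≤ kern Γ F hfd f x y := by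
  unfold kern
  exact tsum_nonneg fun γ => h0 _

include hC hFC in
theorem kern_ge (f : G → ℝ) (h0 : ∀ g, 0 ≤ f g) (D : Set G) (hD : IsCompact D)
    (hf : ∀ g, g ∉ D → f g = 0) (h k : G) (γ : G) (hγ : γ ∈ Γ) :
    f (k * γ * h⁻¹) ≤ kern Γ F hfd f (QuotientGroup.mk h) (QuotientGroup.mk k) := by
  have h1 := QuotientGroup.eq.1 (mk_sec Γ F hfd (QuotientGroup.mk h))
  have h2 := QuotientGroup.eq.1 (mk_sec Γ F hfd (QuotientGroup.mk k))
  rw [kern_eq Γ F hfd C hC hFC f D hD hf]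
  set a := sec Γ F hfd (QuotientGroup.mk h)
  set b := sec Γ F hfd (QuotientGroup.mk k)
  have hδ : b⁻¹ * k * γ * (a⁻¹ * h)⁻¹ ∈ Γ := Γ.mul_mem (Γ.mul_mem h2 hγ) (Γ.inv_mem h1)
  have e1 : k * γ * h⁻¹ = b * (b⁻¹ * k * γ * (a⁻¹ * h)⁻¹) * a⁻¹ := by group
  rw [e1]
  by_cases hT : (⟨_, hδ⟩ : Γ) ∈ (fin_lat Γ C D hD hC).toFinset
  · exact Finset.single_le_sum (f := fun γ : Γ => f (b * γ * a⁻¹)) (fun γ _ => h0 _) hT
  · have := f_zero Γ F C hC hFC f D hD hf a (hFC (sec_mem Γ F hfd _)) b (sec_mem Γ F hfd _) ⟨_, hδ⟩ hT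
    simp only at this
    rw [this]
    exact Finset.sum_nonneg fun γ _ => h0 _

include hC hFC in
theorem kern_add (f₁ f₂ : G → ℝ) (D : Set G) (hD : IsCompact D)
    (hf₁ : ∀ g, g ∉ D → f₁ g = 0) (hf₂ : ∀ g, g ∉ D → f₂ g = 0) (x y : G ⧸ Γ) :
    kern Γ F hfd (fun g => f₁ g + f₂ g) x y = kern Γ F hfd f₁ x y + kern Γ F hfd f₂ x y := by
  rw [kern_eq Γ F hfd C hC hFC f₁ D hD hf₁, kern_eq Γ F hfd C hC hFC f₂ D hD hf₂,
    kern_eq Γ F hfd C hC hFC _ D hD (fun g hg => by simp [hf₁ g hg, hf₂ g hg]),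
    Finset.sum_add_distrib]

/-- the double integral of the squared kernel -/
noncomputable def II (f : G → ℝ) : ℝ≥0∞ :=
  ∫⁻ x, ∫⁻ y, ‖(kern Γ F hfd f x y : ℂ)‖ₑ ^ 2 ∂(qm Γ ν F) ∂(qm Γ ν F)

/-- the double integral of the product of two kernels -/
noncomputable def JJ (f₁ f₂ : G → ℝ) : ℝ≥0∞ :=
  ∫⁻ x, ∫⁻ y, ‖(kern Γ F hfd f₁ x y : ℂ)‖ₑ * ‖(kern Γ F hfd f₂ x y : ℂ)‖ₑ ∂(qm Γ ν F) ∂(qm Γ ν F)

theorem expand {X : Type*} [MeasurableSpace X] (μ : Measure X) [SFinite μ] (a b : X → X → ℝ≥0∞)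
    (ha : Measurable (Function.uncurry a)) (hb : Measurable (Function.uncurry b)) :
    ∫⁻ x, ∫⁻ y, (a x y + b x y) ^ 2 ∂μ ∂μ = ∫⁻ x, ∫⁻ y, a x y ^ 2 ∂μ ∂μ +
      ∫⁻ x, ∫⁻ y, b x y ^ 2 ∂μ ∂μ + 2 * ∫⁻ x, ∫⁻ y, a x y * b x y ∂μ ∂μ := by
  have key : ∀ x y : X, (a x y + b x y) ^ 2 = a x y ^ 2 + b x y ^ 2 + 2 * (a x y * b x y) := by
    intro x y; ring
  simp_rw [key]
  have s1 : ∀ x : X, Measurable (fun y => a x y) := fun x =>
    ha.comp (measurable_const.prodMk measurable_id)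
  have s2 : ∀ x : X, Measurable (fun y => b x y) := fun x =>
    hb.comp (measurable_const.prodMk measurable_id)
  have i1 : ∀ x : X, ∫⁻ y, (a x y ^ 2 + b x y ^ 2 + 2 * (a x y * b x y)) ∂μ =
      ∫⁻ y, a x y ^ 2 ∂μ + ∫⁻ y, b x y ^ 2 ∂μ + 2 * ∫⁻ y, a x y * b x y ∂μ := by
    intro x
    rw [lintegral_add_left (f := fun y => a x y ^ 2 + b x y ^ 2)
        (((s1 x).pow_const 2).add ((s2 x).pow_const 2)),
      lintegral_add_left (f := fun y => a x y ^ 2) ((s1 x).pow_const 2),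
      lintegral_const_mul (f := fun y => a x y * b x y) _ ((s1 x).mul (s2 x))]
  simp_rw [i1]
  have m1 : Measurable fun x => ∫⁻ y, a x y ^ 2 ∂μ :=
    (ha.pow_const 2).lintegral_prod_right'
  have m2 : Measurable fun x => ∫⁻ y, b x y ^ 2 ∂μ :=
    (hb.pow_const 2).lintegral_prod_right'
  have m3 : Measurable fun x => ∫⁻ y, a x y * b x y ∂μ :=
    (ha.mul hb).lintegral_prod_right'
  rw [lintegral_add_left (f := fun x => ∫⁻ y, a x y ^ 2 ∂μ + ∫⁻ y, b x y ^ 2 ∂μ) (m1.add m2),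
    lintegral_add_left m1, lintegral_const_mul _ m3]

theorem enorm_ofReal' (r : ℝ) (hr : 0 ≤ r) : ‖(r : ℂ)‖ₑ = ENNReal.ofReal r := by
  rw [← ofReal_norm, Complex.norm_real, Real.norm_of_nonneg hr]

include hF hC hFC in
theorem II_add (f₁ f₂ : G → ℝ) (hm₁ : Measurable f₁) (hm₂ : Measurable f₂)
    (h1 : ∀ g, 0 ≤ f₁ g) (h2 : ∀ g, 0 ≤ f₂ g) (D : Set G)
    (hD : IsCompact D) (hf₁ : ∀ g, g ∉ D → f₁ g = 0) (hf₂ : ∀ g, g ∉ D → f₂ g = 0)
    [SFinite (qm Γ ν F)] :
    II ν F hfd (fun g => f₁ g + f₂ g) = II ν F hfd f₁ + II ν F hfd f₂ + 2 * JJ ν F hfd f₁ f₂ := by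
  have e1 := expand (qm Γ ν F) (fun x y => ‖(kern Γ F hfd f₁ x y : ℂ)‖ₑ)
    (fun x y => ‖(kern Γ F hfd f₂ x y : ℂ)‖ₑ)
    (Complex.measurable_ofReal.comp (kern_meas Γ F hfd C hF f₁ hm₁ D hD hf₁ hC hFC)).enorm
    (Complex.measurable_ofReal.comp (kern_meas Γ F hfd C hF f₂ hm₂ D hD hf₂ hC hFC)).enorm
  unfold II JJ
  rw [← e1]
  refine lintegral_congr fun x => lintegral_congr fun y => ?_
  rw [kern_add F hfd C hC hFC f₁ f₂ D hD hf₁ hf₂]
  have n1 := kern_nonneg F hfd C hC hFC f₁ h1 x y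
  have n2 := kern_nonneg F hfd C hC hFC f₂ h2 x y
  rw [enorm_ofReal' _ n1, enorm_ofReal' _ n2, enorm_ofReal' _ (add_nonneg n1 n2),
    ENNReal.ofReal_add n1 n2]

include hF hC hFC in
theorem II_fin (f : G → ℝ) (M : ℝ) (hM : ∀ g, |f g| ≤ M) (D : Set G)
    (hD : IsCompact D) (hf : ∀ g, g ∉ D → f g = 0) [IsFiniteMeasure (qm Γ ν F)] :
    II ν F hfd f ≠ ∞ := by
  have hb : ∀ x y : G ⧸ Γ, ‖(kern Γ F hfd f x y : ℂ)‖ₑ ^ 2 ≤
      ENNReal.ofReal ((fin_lat Γ C D hD hC).toFinset.card * M) ^ 2 := by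
    intro x y
    gcongr
    rw [← ofReal_norm, Complex.norm_real, Real.norm_eq_abs]
    exact ENNReal.ofReal_le_ofReal (kern_bdd Γ F hfd C f M hM D hD hf hC hFC x y)
  apply ne_of_lt
  unfold II
  calc _ ≤ ∫⁻ x : G ⧸ Γ, ∫⁻ y : G ⧸ Γ, ENNReal.ofReal ((fin_lat Γ C D hD hC).toFinset.card * M) ^ 2
          ∂(qm Γ ν F) ∂(qm Γ ν F) := lintegral_mono fun x => lintegral_mono fun y => hb x y
    _ < ∞ := by
        simp only [lintegral_const]
        finiteness

end general

end Part12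

section Part13

open MeasureTheory Measure Module Topology Set
open scoped Pointwise ENNReal InnerProductSpace

set_option linter.unusedSectionVars false

section general

variable {G : Type} [Group G] [TopologicalSpace G] [IsTopologicalGroup G] [PolishSpace G]
  [LocallyCompactSpace G] [MeasurableSpace G] [BorelSpace G]

variable {Γ : Subgroup G} [DiscreteTopology Γ] (ν : Measure G) [IsHaarMeasure ν] [IsMulRightInvariant ν]

theorem Bf_twist (μ : Measure (G ⧸ Γ)) [SMulInvariantMeasure G (G ⧸ Γ) μ] (θ : G ≃* G)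
    (hθ : Continuous θ) (hθ' : Continuous θ.symm) (hθν : MeasurePreserving θ ν ν)
    (U : Lp ℂ 2 μ ≃ₗᵢ[ℂ] Lp ℂ 2 μ) (hU : ∀ g v, U (shift μ g v) = shift μ (θ g) (U v))
    (f : G → ℝ) (u v : Lp ℂ 2 μ) :
    Bf ν μ f u v = Bf ν μ (fun g => f (θ.symm g)) (U u) (U v) := by
  unfold Bf
  let H : G ≃ₜ G := ⟨θ.toEquiv, hθ, hθ'⟩
  have hemb : MeasurableEmbedding θ := H.measurableEmbedding
  have h1 := hθν.integral_comp hemb
    (fun g' => (f (θ.symm g') : ℂ) * ⟪U u, shift μ g'⁻¹ (U v)⟫_ℂ)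
  rw [← h1]
  apply integral_congr_ae
  filter_upwards with g
  rw [MulEquiv.symm_apply_apply, ← map_inv, ← hU, LinearIsometryEquiv.inner_map_map]

theorem HS_twist {ι : Type*} (μ : Measure (G ⧸ Γ)) [SMulInvariantMeasure G (G ⧸ Γ) μ] (θ : G ≃* G)
    (hθ : Continuous θ) (hθ' : Continuous θ.symm) (hθν : MeasurePreserving θ ν ν)
    (U : Lp ℂ 2 μ ≃ₗᵢ[ℂ] Lp ℂ 2 μ) (hU : ∀ g v, U (shift μ g v) = shift μ (θ g) (U v))
    (f : G → ℝ) (e : HilbertBasis ι ℂ (Lp ℂ 2 μ)) :
    ∃ e' : HilbertBasis ι ℂ (Lp ℂ 2 μ), HS ν μ f e = HS ν μ (fun g => f (θ.symm g)) e' := by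
  classical
  refine ⟨HilbertBasis.ofRepr (U.symm.trans e.repr), ?_⟩
  have h : ∀ i, (HilbertBasis.ofRepr (U.symm.trans e.repr) : HilbertBasis ι ℂ (Lp ℂ 2 μ)) i = U (e i) := by
    intro i
    rw [← HilbertBasis.repr_symm_single, ← HilbertBasis.repr_symm_single]
    rfl
  unfold HS
  simp_rw [h]
  congr 1
  ext j
  congr 1
  ext i
  rw [Bf_twist ν μ θ hθ hθ' hθν U hU]

theorem no_twist (C : Set G) (hC : IsCompact C) (F : Set G) (hF : MeasurableSet F) (hFC : F ⊆ C)
    (hfd : ∀ x : G, ∃! γ : Γ, x * γ ∈ F) [IsFiniteMeasure (qm Γ ν F)]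
    [SMulInvariantMeasure G (G ⧸ Γ) (qm Γ ν F)] (θ : G ≃* G)
    (hθ : Continuous θ) (hθ' : Continuous θ.symm) (hθν : MeasurePreserving θ ν ν)
    (U : Lp ℂ 2 (qm Γ ν F) ≃ₗᵢ[ℂ] Lp ℂ 2 (qm Γ ν F))
    (hU : ∀ g v, U (shift (qm Γ ν F) g v) = shift (qm Γ ν F) (θ g) (U v))
    (E : Set G) (hE : IsOpen E) (hconj : ∀ g, ∀ x ∈ E, g * x * g⁻¹ ∈ E) (γ₀ : G) (h0 : γ₀ ∈ Γ)
    (h0E : γ₀ ∈ E) (hno : ∀ γ ∈ Γ, θ.symm γ ∉ E) : False := by
  classical
  -- choose the two small open sets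
  have hc1 : Continuous fun p : G × G => p.1 * p.2⁻¹ := by fun_prop
  have hn1 : (fun p : G × G => p.1 * p.2⁻¹) ⁻¹' E ∈ 𝓝 (γ₀, (1 : G)) :=
    hc1.continuousAt.preimage_mem_nhds (hE.mem_nhds (by simpa using h0E))
  obtain ⟨N₁, hN₁, N₂, hN₂, hN⟩ := mem_nhds_prod_iff.1 hn1
  obtain ⟨K₁, hK₁, hK₁n⟩ := exists_compact_mem_nhds γ₀
  obtain ⟨K₂, hK₂, hK₂n⟩ := exists_compact_mem_nhds (1 : G)
  let W₁ : Set G := interior (N₁ ∩ K₁)
  let W₂ : Set G := interior (N₂ ∩ K₂)
  have hW₁ : γ₀ ∈ W₁ := mem_interior_iff_mem_nhds.2 (Filter.inter_mem hN₁ hK₁n)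
  have hW₂ : (1 : G) ∈ W₂ := mem_interior_iff_mem_nhds.2 (Filter.inter_mem hN₂ hK₂n)
  have hW : ∀ a ∈ W₁, ∀ b ∈ W₂, a * b⁻¹ ∈ E := fun a ha b hb =>
    hN (Set.mk_mem_prod (interior_subset ha).1 (interior_subset hb).1)
  let D : Set G := K₁ ∪ K₂
  have hD : IsCompact D := hK₁.union hK₂
  let f₁ : G → ℝ := W₁.indicator 1
  let f₂ : G → ℝ := W₂.indicator 1
  have hm₁ : Measurable f₁ := measurable_one.indicator isOpen_interior.measurableSet
  have hm₂ : Measurable f₂ := measurable_one.indicator isOpen_interior.measurableSet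
  have hp₁ : ∀ g, 0 ≤ f₁ g := fun g => Set.indicator_nonneg (fun _ _ => zero_le_one) g
  have hp₂ : ∀ g, 0 ≤ f₂ g := fun g => Set.indicator_nonneg (fun _ _ => zero_le_one) g
  have hb₁ : ∀ g, f₁ g ≤ 1 := fun g => Set.indicator_le_self' (fun _ _ => zero_le_one) g
  have hb₂ : ∀ g, f₂ g ≤ 1 := fun g => Set.indicator_le_self' (fun _ _ => zero_le_one) g
  have hs₁ : ∀ g, g ∉ D → f₁ g = 0 := fun g hg =>
    Set.indicator_of_notMem (fun h => hg (Or.inl (interior_subset h).2)) _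
  have hs₂ : ∀ g, g ∉ D → f₂ g = 0 := fun g hg =>
    Set.indicator_of_notMem (fun h => hg (Or.inr (interior_subset h).2)) _
  obtain ⟨w, e, -⟩ := exists_hilbertBasis ℂ (Lp ℂ 2 (qm Γ ν F))
  -- invariance of the double integral
  have hinv : ∀ f : G → ℝ, Measurable f → (∃ M, ∀ g, |f g| ≤ M) → (∀ g, g ∉ D → f g = 0) →
      II ν F hfd f = II ν F hfd (fun g => f (θ.symm g)) := by
    intro f hfm ⟨M, hM⟩ hf
    obtain ⟨e', he'⟩ := HS_twist ν (qm Γ ν F) θ hθ hθ' hθν U hU f e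
    rw [HS_eq ν F hfd hF C hC hFC f hfm M hM D hD hf e,
      HS_eq ν F hfd hF C hC hFC (fun g => f (θ.symm g)) (hfm.comp hθ'.measurable) M
        (fun g => hM _) (θ '' D) (hD.image hθ) (fun g hg => hf _ (fun h => hg ⟨_, h, by simp⟩)) e'] at he'
    exact he'
  have habs₁ : ∀ g, |f₁ g| ≤ 1 := fun g => by rw [abs_of_nonneg (hp₁ g)]; exact hb₁ g
  have habs₂ : ∀ g, |f₂ g| ≤ 1 := fun g => by rw [abs_of_nonneg (hp₂ g)]; exact hb₂ g
  have i1 := hinv f₁ hm₁ ⟨1, habs₁⟩ hs₁
  have i2 := hinv f₂ hm₂ ⟨1, habs₂⟩ hs₂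
  have i3 := hinv (fun g => f₁ g + f₂ g) (hm₁.add hm₂) ⟨2, fun g => (abs_add_le _ _).trans
    (by linarith [habs₁ g, habs₂ g])⟩ (fun g hg => by simp [hs₁ g hg, hs₂ g hg])
  rw [II_add ν F hfd hF C hC hFC f₁ f₂ hm₁ hm₂ hp₁ hp₂ D hD hs₁ hs₂,
    II_add ν F hfd hF C hC hFC (fun g => f₁ (θ.symm g)) (fun g => f₂ (θ.symm g))
      (hm₁.comp hθ'.measurable) (hm₂.comp hθ'.measurable) (fun g => hp₁ _) (fun g => hp₂ _)
      (θ '' D) (hD.image hθ) (fun g hg => hs₁ _ (fun h => hg ⟨_, h, by simp⟩))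
      (fun g hg => hs₂ _ (fun h => hg ⟨_, h, by simp⟩)), i1, i2] at i3
  have fin1 := II_fin ν F hfd hF C hC hFC f₁ 1 habs₁ D hD hs₁
  have fin2 := II_fin ν F hfd hF C hC hFC f₂ 1 habs₂ D hD hs₂
  rw [i1] at fin1
  rw [i2] at fin2
  have i4 : 2 * JJ ν F hfd f₁ f₂ = 2 * JJ ν F hfd (fun g => f₁ (θ.symm g)) (fun g => f₂ (θ.symm g)) :=
    (ENNReal.add_right_inj (ENNReal.add_ne_top.2 ⟨fin1, fin2⟩)).1 i3
  -- the twisted product vanishes
  have j0 : JJ ν F hfd (fun g => f₁ (θ.symm g)) (fun g => f₂ (θ.symm g)) = 0 := by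
    unfold JJ
    have : ∀ x y : G ⧸ Γ, ‖(kern Γ F hfd (fun g => f₁ (θ.symm g)) x y : ℂ)‖ₑ *
        ‖(kern Γ F hfd (fun g => f₂ (θ.symm g)) x y : ℂ)‖ₑ = 0 := by
      intro x y
      by_contra hne
      rw [mul_eq_zero, not_or] at hne
      obtain ⟨n1, n2⟩ := hne
      have n1' : kern Γ F hfd (fun g => f₁ (θ.symm g)) x y ≠ 0 := fun h => n1 (by rw [h]; simp)
      have n2' : kern Γ F hfd (fun g => f₂ (θ.symm g)) x y ≠ 0 := fun h => n2 (by rw [h]; simp)
      obtain ⟨γ₁, hγ₁⟩ : ∃ γ : Γ, f₁ (θ.symm (sec Γ F hfd y * γ * (sec Γ F hfd x)⁻¹)) ≠ 0 := by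
        by_contra hall
        push Not at hall
        exact n1' ((tsum_congr hall).trans tsum_zero)
      obtain ⟨γ₂, hγ₂⟩ : ∃ γ : Γ, f₂ (θ.symm (sec Γ F hfd y * γ * (sec Γ F hfd x)⁻¹)) ≠ 0 := by
        by_contra hall
        push Not at hall
        exact n2' ((tsum_congr hall).trans tsum_zero)
      have m1 : θ.symm (sec Γ F hfd y * γ₁ * (sec Γ F hfd x)⁻¹) ∈ W₁ := by
        by_contra hh
        exact hγ₁ (Set.indicator_of_notMem hh _)
      have m2 : θ.symm (sec Γ F hfd y * γ₂ * (sec Γ F hfd x)⁻¹) ∈ W₂ := by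
        by_contra hh
        exact hγ₂ (Set.indicator_of_notMem hh _)
      have m3 := hW _ m1 _ m2
      have m4 := hconj (θ.symm (sec Γ F hfd y))⁻¹ _ m3
      apply hno ((γ₁ * γ₂⁻¹ : Γ) : G) (Subtype.mem _)
      convert m4 using 1
      simp only [map_mul, map_inv, Subgroup.coe_mul, Subgroup.coe_inv]
      group
    simp_rw [this]
    simp
  rw [j0, mul_zero, mul_eq_zero] at i4
  have i5 : JJ ν F hfd f₁ f₂ = 0 := by
    rcases i4 with h | h
    · norm_num at h
    · exact h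
  -- the untwisted product is positive
  have hc2 : Continuous fun p : G × G => p.2 * γ₀ * p.1⁻¹ := by fun_prop
  have hc3 : Continuous fun p : G × G => p.2 * 1 * p.1⁻¹ := by fun_prop
  have hn2 : (fun p : G × G => p.2 * γ₀ * p.1⁻¹) ⁻¹' W₁ ∩ (fun p : G × G => p.2 * 1 * p.1⁻¹) ⁻¹' W₂
      ∈ 𝓝 ((1 : G), (1 : G)) := by
    apply Filter.inter_mem
    · apply hc2.continuousAt.preimage_mem_nhds
      apply isOpen_interior.mem_nhds
      rw [one_mul, inv_one, mul_one]
      exact hW₁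
    · apply hc3.continuousAt.preimage_mem_nhds
      apply isOpen_interior.mem_nhds
      rw [one_mul, inv_one, mul_one]
      exact hW₂
  obtain ⟨P, hP, Q, hQ, hPQ⟩ := mem_nhds_prod_iff.1 hn2
  let P' := interior P
  let Q' := interior Q
  have hP1 : (1 : G) ∈ P' := mem_interior_iff_mem_nhds.2 hP
  have hQ1 : (1 : G) ∈ Q' := mem_interior_iff_mem_nhds.2 hQ
  let OP : Set (G ⧸ Γ) := (QuotientGroup.mk : G → G ⧸ Γ) '' P'
  let OQ : Set (G ⧸ Γ) := (QuotientGroup.mk : G → G ⧸ Γ) '' Q'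
  have hOP : IsOpen OP := QuotientGroup.isOpenMap_coe _ isOpen_interior
  have hOQ : IsOpen OQ := QuotientGroup.isOpenMap_coe _ isOpen_interior
  have pOP := qm_pos ν F hfd hF OP hOP ⟨_, _, hP1, rfl⟩
  have pOQ := qm_pos ν F hfd hF OQ hOQ ⟨_, _, hQ1, rfl⟩
  have mOP : MeasurableSet OP := by
    show MeasurableSet ((QuotientGroup.mk : G → G ⧸ Γ) ⁻¹' OP)
    exact (hOP.preimage QuotientGroup.continuous_mk).measurableSet
  have mOQ : MeasurableSet OQ := by
    show MeasurableSet ((QuotientGroup.mk : G → G ⧸ Γ) ⁻¹' OQ)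
    exact (hOQ.preimage QuotientGroup.continuous_mk).measurableSet
  have hlow : ∀ x ∈ OP, ∀ y ∈ OQ, (1 : ℝ≥0∞) ≤ ‖(kern Γ F hfd f₁ x y : ℂ)‖ₑ *
      ‖(kern Γ F hfd f₂ x y : ℂ)‖ₑ := by
    rintro _ ⟨h, hh, rfl⟩ _ ⟨k, hk, rfl⟩
    have hmem := hPQ (Set.mk_mem_prod (interior_subset hh) (interior_subset hk))
    have g1 := kern_ge F hfd C hC hFC f₁ hp₁ D hD hs₁ h k γ₀ h0
    have g2 := kern_ge F hfd C hC hFC f₂ hp₂ D hD hs₂ h k 1 Γ.one_mem
    have w1 : k * γ₀ * h⁻¹ ∈ W₁ := hmem.1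
    have w2 : k * 1 * h⁻¹ ∈ W₂ := hmem.2
    have v1 : f₁ (k * γ₀ * h⁻¹) = 1 := Set.indicator_of_mem w1 _
    have v2 : f₂ (k * 1 * h⁻¹) = 1 := Set.indicator_of_mem w2 _
    rw [v1] at g1
    rw [v2] at g2
    rw [enorm_ofReal' _ (by linarith), enorm_ofReal' _ (by linarith)]
    calc (1 : ℝ≥0∞) = ENNReal.ofReal 1 * ENNReal.ofReal 1 := by simp
      _ ≤ _ := by gcongr
  have hpos : qm Γ ν F OP * qm Γ ν F OQ ≤ JJ ν F hfd f₁ f₂ := by
    unfold JJ
    calc qm Γ ν F OP * qm Γ ν F OQ = ∫⁻ x in OP, qm Γ ν F OQ ∂(qm Γ ν F) := by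
          rw [setLIntegral_const, mul_comm]
      _ = ∫⁻ x in OP, ∫⁻ y in OQ, 1 ∂(qm Γ ν F) ∂(qm Γ ν F) := by
          simp
      _ ≤ ∫⁻ x in OP, ∫⁻ y, ‖(kern Γ F hfd f₁ x y : ℂ)‖ₑ *
            ‖(kern Γ F hfd f₂ x y : ℂ)‖ₑ ∂(qm Γ ν F) ∂(qm Γ ν F) := by
          apply setLIntegral_mono_ae' mOP
          filter_upwards with x hx
          refine le_trans ?_ (setLIntegral_le_lintegral OQ _)
          apply setLIntegral_mono_ae' mOQ
          filter_upwards with y hy
          exact hlow x hx y hy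
      _ ≤ _ := setLIntegral_le_lintegral OP _
  rw [i5] at hpos
  have := le_antisymm hpos zero_le
  rw [mul_eq_zero] at this
  rcases this with h | h
  · exact pOP h
  · exact pOQ h

end general

end Part13

section Part14

open MeasureTheory Measure Module Topology Set
open scoped Pointwise ENNReal InnerProductSpace

set_option linter.unusedSectionVars false

section transport

variable {G : Type} [Group G] [TopologicalSpace G] [IsTopologicalGroup G] [MeasurableSpace G]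
  [BorelSpace G]

theorem inv_of_isInvariant {Γ : Subgroup G} {μ : Measure (G ⧸ Γ)} (h : IsInvariant G μ) :
    SMulInvariantMeasure G (G ⧸ Γ) μ :=
  ⟨fun c _ hs => (h c).measure_preimage hs.nullMeasurableSet⟩

theorem isInvariant_of_inv {Γ : Subgroup G} {μ : Measure (G ⧸ Γ)}
    (h : SMulInvariantMeasure G (G ⧸ Γ) μ) : IsInvariant G μ :=
  fun g => measurePreserving_smul g μ

variable (α : G ≃ₜ* G) (Γ : Subgroup G)

/-- image of a subgroup under a topological automorphism -/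
def mapSub : Subgroup G := Γ.map (α : G →* G)

/-- the induced map of coset spaces -/
def qf : G ⧸ Γ → G ⧸ (mapSub α Γ) := Quotient.map' α (fun a b h => by
  rw [QuotientGroup.leftRel_apply] at h ⊢
  refine ⟨a⁻¹ * b, h, ?_⟩
  simp)

/-- the inverse of the induced map of coset spaces -/
def qb : G ⧸ (mapSub α Γ) → G ⧸ Γ := Quotient.map' α.symm (fun a b h => by
  rw [QuotientGroup.leftRel_apply] at h ⊢
  obtain ⟨c, hc, hc2⟩ := h
  have h3 : α.symm (a⁻¹ * b) = c := by
    rw [← hc2]; exact α.symm_apply_apply c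
  rw [map_mul, map_inv] at h3
  rw [h3]; exact hc)

theorem qf_mk (g : G) : qf α Γ (QuotientGroup.mk g) = QuotientGroup.mk (α g) := rfl
theorem qb_mk (g : G) : qb α Γ (QuotientGroup.mk g) = QuotientGroup.mk (α.symm g) := rfl

theorem qb_qf (x : G ⧸ Γ) : qb α Γ (qf α Γ x) = x := by
  obtain ⟨g, rfl⟩ := QuotientGroup.mk_surjective x
  rw [qf_mk, qb_mk, ContinuousMulEquiv.symm_apply_apply]

theorem qf_qb (x : G ⧸ (mapSub α Γ)) : qf α Γ (qb α Γ x) = x := by
  obtain ⟨g, rfl⟩ := QuotientGroup.mk_surjective x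
  rw [qb_mk, qf_mk, ContinuousMulEquiv.apply_symm_apply]

theorem qf_smul (g : G) (x : G ⧸ Γ) : qf α Γ (g • x) = α g • qf α Γ x := by
  obtain ⟨k, rfl⟩ := QuotientGroup.mk_surjective x
  rw [qf_mk]
  show qf α Γ (QuotientGroup.mk (g * k)) = QuotientGroup.mk (α g * α k)
  rw [qf_mk, map_mul]

theorem qf_meas : Measurable (qf α Γ) := by
  intro s hs
  show MeasurableSet ((QuotientGroup.mk : G → G ⧸ Γ) ⁻¹' (qf α Γ ⁻¹' s))
  have h1 : MeasurableSet ((QuotientGroup.mk : G → G ⧸ (mapSub α Γ)) ⁻¹' s) := hs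
  exact α.continuous.measurable h1

theorem qb_meas : Measurable (qb α Γ) := by
  intro s hs
  show MeasurableSet ((QuotientGroup.mk : G → G ⧸ (mapSub α Γ)) ⁻¹' (qb α Γ ⁻¹' s))
  have h1 : MeasurableSet ((QuotientGroup.mk : G → G ⧸ Γ) ⁻¹' s) := hs
  exact α.symm.continuous.measurable h1

theorem qf_cont : Continuous (qf α Γ) := by
  rw [(QuotientGroup.isQuotientMap_mk Γ).continuous_iff]
  exact QuotientGroup.continuous_mk.comp α.continuous

/-- transport of a uniform lattice -/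
noncomputable abbrev UniformLattice.map (α : G ≃ₜ* G) (L : UniformLattice G) : UniformLattice G where
  Γ := mapSub α L.Γ
  discrete := by
    refine DiscreteTopology.of_continuous_injective (β := L.Γ)
      (f := fun x : mapSub α L.Γ => (⟨α.symm x.1, by
        obtain ⟨c, hc, hc2⟩ := x.2
        have : α.symm x.1 = c := by rw [← hc2]; exact α.symm_apply_apply c
        rw [this]; exact hc⟩ : L.Γ)) ?_ ?_
    · exact (α.symm.continuous.comp continuous_subtype_val).subtype_mk _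
    · intro x y hxy
      have := congrArg Subtype.val hxy
      exact Subtype.ext (α.symm.injective this)
  cocompact := by
    constructor
    have h : IsCompact (Set.range (qf α L.Γ)) := isCompact_range (qf_cont α L.Γ)
    rwa [Set.range_eq_univ.2 (fun x => ⟨qb α L.Γ x, qf_qb α L.Γ x⟩)] at h
  μ := L.μ.map (qf α L.Γ)
  invariant := by
    have hLinv : SMulInvariantMeasure G (G ⧸ L.Γ) L.μ := inv_of_isInvariant L.invariant
    apply isInvariant_of_inv
    constructor
    intro c s hs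
    have h1 := measurable_const_smul (α := G ⧸ (mapSub α L.Γ)) c
    rw [Measure.map_apply (qf_meas α L.Γ) (h1 hs), Measure.map_apply (qf_meas α L.Γ) hs]
    have h2 : qf α L.Γ ⁻¹' ((fun x => c • x) ⁻¹' s) =
        (fun x => α.symm c • x) ⁻¹' (qf α L.Γ ⁻¹' s) := by
      ext x
      simp only [mem_preimage]
      rw [qf_smul, ContinuousMulEquiv.apply_symm_apply]
    rw [h2]
    exact measure_preimage_smul_of_nullMeasurableSet ((qf_meas α L.Γ) hs).nullMeasurableSet _
  finite := Measure.isFiniteMeasure_map _ _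
  ne_zero := by
    intro h
    apply L.ne_zero
    have h1 : (L.μ.map (qf α L.Γ)) univ = 0 := by rw [h]; rfl
    rw [Measure.map_apply (qf_meas α L.Γ) MeasurableSet.univ, preimage_univ] at h1
    exact Measure.measure_univ_eq_zero.1 h1

theorem mp_qf (L : UniformLattice G) : MeasurePreserving (qf α L.Γ) L.μ (L.map α).μ :=
  ⟨qf_meas α L.Γ, rfl⟩

theorem mp_qb (L : UniformLattice G) : MeasurePreserving (qb α L.Γ) (L.map α).μ L.μ := by
  refine ⟨qb_meas α L.Γ, ?_⟩
  show Measure.map (qb α L.Γ) (L.μ.map (qf α L.Γ)) = L.μ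
  rw [Measure.map_map (qb_meas α L.Γ) (qf_meas α L.Γ)]
  have : qb α L.Γ ∘ qf α L.Γ = id := funext fun x => qb_qf α L.Γ x
  rw [this, Measure.map_id]

theorem cmp_congr {X Y : Type*} [MeasurableSpace X] [MeasurableSpace Y] {μ : Measure X}
    {ν : Measure Y} (f g : X → Y) (hf : MeasurePreserving f μ ν) (hg : MeasurePreserving g μ ν)
    (h : f = g) (F : Lp ℂ 2 ν) : Lp.compMeasurePreserving f hf F = Lp.compMeasurePreserving g hg F := by
  subst h; rfl

/-- the isometry `F ↦ F ∘ qf` -/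
noncomputable def WW (L : UniformLattice G) : Lp ℂ 2 (L.map α).μ ≃ₗᵢ[ℂ] Lp ℂ 2 L.μ :=
  LinearIsometryEquiv.ofSurjective (Lp.compMeasurePreservingₗᵢ ℂ (qf α L.Γ) (mp_qf α L)) (by
    intro F
    refine ⟨Lp.compMeasurePreserving (qb α L.Γ) (mp_qb α L) F, ?_⟩
    show Lp.compMeasurePreserving (qf α L.Γ) (mp_qf α L)
      (Lp.compMeasurePreserving (qb α L.Γ) (mp_qb α L) F) = F
    rw [← Lp.compMeasurePreserving_comp_apply]
    refine (cmp_congr (qb α L.Γ ∘ qf α L.Γ) id _ (MeasurePreserving.id _)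
      (funext fun x => qb_qf α L.Γ x) F).trans ?_
    simp)

theorem WW_apply (L : UniformLattice G) (F : Lp ℂ 2 (L.map α).μ) :
    WW α L F = Lp.compMeasurePreserving (qf α L.Γ) (mp_qf α L) F := rfl

theorem WW_shift (L : UniformLattice G) (g : G) (F : Lp ℂ 2 (L.map α).μ) :
    WW α L (translation (L.map α).μ (L.map α).invariant (α g) F) =
      translation L.μ L.invariant g (WW α L F) := by
  rw [WW_apply, WW_apply]
  show Lp.compMeasurePreserving (qf α L.Γ) (mp_qf α L)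
    (Lp.compMeasurePreserving (fun x => (α g)⁻¹ • x) _ F) =
    Lp.compMeasurePreserving (fun x => g⁻¹ • x) _ (Lp.compMeasurePreserving (qf α L.Γ) (mp_qf α L) F)
  rw [← Lp.compMeasurePreserving_comp_apply, ← Lp.compMeasurePreserving_comp_apply]
  apply cmp_congr
  ext x
  simp only [Function.comp_apply]
  rw [qf_smul, map_inv]

theorem mult_map (L : UniformLattice G) (a : UnitaryDual G) :
    mult a (L.map α) = mult (UnitaryDual.twist α a) L := by
  induction a using Quotient.inductionOn with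
  | _ π =>
    refine (intertwinerDim_congr (act (π.twist α).ρ) (act π.ρ) (translation L.μ L.invariant)
      (translation (L.map α).μ (L.map α).invariant) α α.surjective
      (LinearIsometryEquiv.refl ℂ π.H) (WW α L).symm (fun g v => rfl) (fun g v => ?_)).symm
    apply (WW α L).injective
    rw [WW_shift, LinearIsometryEquiv.apply_symm_apply, LinearIsometryEquiv.apply_symm_apply]

theorem sum_reindex {ι : Type 1} (e : ι ≃ ι) (f : ι → Cardinal.{0}) :
    Cardinal.sum (fun i => f (e i)) = Cardinal.sum f := by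
  unfold Cardinal.sum
  exact Cardinal.mk_congr (Equiv.sigmaCongrLeft (β := fun i => (f i).out) e)

theorem packet_map (L : UniformLattice G) (R : UnitaryDual G → UnitaryDual G → Prop)
    (hinv : ∀ b, UnitaryDual.twist α (UnitaryDual.twist α b) = b)
    (hR : ∀ a b, R a b → R a (UnitaryDual.twist α b)) (a : UnitaryDual G) :
    packetMult R a L = packetMult R a (L.map α) := by
  unfold packetMult
  simp_rw [mult_map]
  let e : {b : UnitaryDual G // R a b} ≃ {b : UnitaryDual G // R a b} :=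
    ⟨fun b => ⟨UnitaryDual.twist α b.1, hR a b.1 b.2⟩,
      fun b => ⟨UnitaryDual.twist α b.1, hR a b.1 b.2⟩,
      fun b => Subtype.ext (hinv b.1), fun b => Subtype.ext (hinv b.1)⟩
  exact (sum_reindex e (fun b => mult b.1 L)).symm

theorem rep_map (L : UniformLattice G) (h : RepEquivalent L (L.map α)) :
    ∃ U : Lp ℂ 2 L.μ ≃ₗᵢ[ℂ] Lp ℂ 2 L.μ, ∀ g v, U (translation L.μ L.invariant g v) =
      translation L.μ L.invariant (α.symm g) (U v) := by
  obtain ⟨U, hU⟩ := h
  refine ⟨U.trans (WW α L), fun g v => ?_⟩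
  have h3 := WW_shift α L (α.symm g) (U v)
  rw [ContinuousMulEquiv.apply_symm_apply] at h3
  rw [LinearIsometryEquiv.trans_apply, hU, h3, LinearIsometryEquiv.trans_apply]

end transport

end Part14

section Part15

open MeasureTheory Measure Module Topology Set
open scoped Pointwise ENNReal InnerProductSpace

/-! ### unimodularity -/

theorem hom_trivial (f : SL2 →* NNReal) (g : SL2) : f g = 1 := by
  have h : (⊤ : Subgroup SL2) ≤ f.ker := by
    rw [← _root_.Matrix.SL2.commutator_eq_top (F := ℝ) (a := 2) (by norm_num) (by norm_num),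
      commutator_def, Subgroup.commutator_le]
    intro x _ y _
    rw [MonoidHom.mem_ker, commutatorElement_def, map_mul, map_mul, map_mul]
    have e1 : f x * f x⁻¹ = 1 := by rw [← map_mul, mul_inv_cancel, map_one]
    have e2 : f y * f y⁻¹ = 1 := by rw [← map_mul, mul_inv_cancel, map_one]
    calc f x * f y * f x⁻¹ * f y⁻¹ = (f x * f x⁻¹) * (f y * f y⁻¹) := by ring
      _ = 1 := by rw [e1, e2, mul_one]
  exact MonoidHom.mem_ker.1 (h (Subgroup.mem_top g))

theorem modular_trivial (g : GG) : modularCharacterFun g = 1 := by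
  have h : ∀ g : GG, (modularCharacter : GG →* NNReal) g = 1 := by
    rintro ⟨a, b⟩
    have e : ((a, b) : GG) = (MonoidHom.inl SL2 SL2 a) * (MonoidHom.inr SL2 SL2 b) := by simp
    rw [e, map_mul]
    have e1 := hom_trivial (modularCharacter.comp (MonoidHom.inl SL2 SL2)) a
    have e2 := hom_trivial (modularCharacter.comp (MonoidHom.inr SL2 SL2)) b
    rw [MonoidHom.comp_apply] at e1 e2
    rw [e1, e2, mul_one]
  exact h g

/-- Haar measure of `GG` -/
noncomputable def nu : Measure GG := Measure.haar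

instance : IsHaarMeasure nu := inferInstanceAs (IsHaarMeasure (Measure.haar : Measure GG))

instance : IsMulRightInvariant nu := rightInv_of_modular nu modular_trivial

theorem preserve (α : GG ≃ₜ* GG) (h : ∀ x, α (α x) = x) : MeasurePreserving α nu nu := by
  have hm : Measurable (α : GG → GG) := α.continuous.measurable
  refine ⟨hm, ?_⟩
  have hH : IsHaarMeasure (Measure.map α nu) :=
    MulEquiv.isHaarMeasure_map nu α.toMulEquiv α.continuous α.symm.continuous
  have h1 := isMulLeftInvariant_eq_smul (Measure.map α nu) nu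
  set c := haarScalarFactor (Measure.map α nu) nu
  have h2 : Measure.map α (Measure.map α nu) = nu := by
    rw [Measure.map_map hm hm]
    have : (α ∘ α : GG → GG) = id := funext h
    rw [this, Measure.map_id]
  rw [h1, Measure.map_smul, h1, smul_smul] at h2
  obtain ⟨K, hK, hKn⟩ := exists_compact_mem_nhds (1 : GG)
  have h3 : nu K ≠ 0 := by
    intro h0
    have h4 : nu (interior K) = 0 := measure_mono_null interior_subset h0
    exact IsOpen.measure_ne_zero nu isOpen_interior ⟨1, mem_interior_iff_mem_nhds.2 hKn⟩ h4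
  have h4 : nu K ≠ ∞ := hK.measure_lt_top.ne
  have h5 : ((c * c : NNReal) • nu) K = nu K := by rw [h2]
  rw [Measure.smul_apply] at h5
  have h6 : ((c * c : NNReal) : ℝ≥0∞) = 1 := by
    have h7 : ((c * c : NNReal) : ℝ≥0∞) * nu K = 1 * nu K := by
      rw [one_mul]; exact h5
    exact (ENNReal.mul_left_inj h3 h4).1 h7
  have h7 : c * c = 1 := by exact_mod_cast h6
  have h8 : c = 1 := by
    have h9 : (c : ℝ) * c = 1 := by exact_mod_cast h7
    have h10 : (c : ℝ) = 1 := by nlinarith [c.2]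
    exact_mod_cast h10
  rw [h1, h8, one_smul]

/-! ### the automorphism -/

/-- `diag(1, -1)` -/
noncomputable def eps : GL (Fin 2) ℝ where
  val := !![1, 0; 0, -1]
  inv := !![1, 0; 0, -1]
  val_inv := by ext i j; fin_cases i <;> fin_cases j <;> simp
  inv_val := by ext i j; fin_cases i <;> fin_cases j <;> simp

/-- conjugation by `diag(1, -1)` on the second factor -/
noncomputable def th : GG ≃ₜ* GG := conjGG (1, eps)

theorem conj_eps (A : SL2) : (conjSL eps A).1 = !![A.1 0 0, - A.1 0 1; - A.1 1 0, A.1 1 1] := by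
  show (!![1, 0; 0, -1] : Matrix (Fin 2) (Fin 2) ℝ) * A.1 * !![1, 0; 0, -1] = _
  conv_lhs => rw [Matrix.eta_fin_two A.1]
  rw [Matrix.mul_fin_two, Matrix.mul_fin_two]
  simp

theorem conj_one (A : SL2) : conjSL 1 A = A := by
  apply Subtype.ext
  show (1 : Matrix (Fin 2) (Fin 2) ℝ) * A.1 * 1 = A.1
  rw [one_mul, mul_one]

theorem th_th (g : GG) : th (th g) = g := by
  obtain ⟨a, b⟩ := g
  show (conjSL 1 (conjSL 1 a), conjSL eps (conjSL eps b)) = (a, b)
  rw [conj_one, conj_one]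
  congr 1
  apply Subtype.ext
  rw [conj_eps, conj_eps]
  ext i j
  fin_cases i <;> fin_cases j <;> simp

theorem th_symm (g : GG) : th.symm g = th g := by
  apply th.injective
  rw [ContinuousMulEquiv.apply_symm_apply, th_th]

/-! ### the conjugation invariant open set -/

/-- elements with both traces in `(-1, 1)` and both lower left entries positive -/
def EE : Set GG := {g | |g.1.1 0 0 + g.1.1 1 1| < 1 ∧ |g.2.1 0 0 + g.2.1 1 1| < 1 ∧
  0 < g.1.1 1 0 ∧ 0 < g.2.1 1 0}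

theorem EE_open : IsOpen EE := by
  unfold EE
  simp only [Set.ofPred_and]
  refine (isOpen_lt (by fun_prop) continuous_const).inter
    ((isOpen_lt (by fun_prop) continuous_const).inter
    ((isOpen_lt continuous_const (by fun_prop)).inter (isOpen_lt continuous_const (by fun_prop))))

theorem conj_entry (h A : SL2) : (h * A * h⁻¹).1 1 0 = A.1 1 0 * h.1 1 1 ^ 2 -
    (A.1 1 1 - A.1 0 0) * h.1 1 1 * h.1 1 0 - A.1 0 1 * h.1 1 0 ^ 2 := by
  show (h.1 * A.1 * h.1.adjugate) 1 0 = _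
  rw [Matrix.adjugate_fin_two]
  simp [Matrix.mul_apply, Fin.sum_univ_two]
  ring

theorem conj_trace (h A : SL2) : (h * A * h⁻¹).1 0 0 + (h * A * h⁻¹).1 1 1 =
    A.1 0 0 + A.1 1 1 := by
  have hd : h.1 0 0 * h.1 1 1 - h.1 0 1 * h.1 1 0 = 1 := by
    have := h.2
    rwa [Matrix.det_fin_two] at this
  show (h.1 * A.1 * h.1.adjugate) 0 0 + (h.1 * A.1 * h.1.adjugate) 1 1 = _
  rw [Matrix.adjugate_fin_two]
  simp [Matrix.mul_apply, Fin.sum_univ_two]
  linear_combination (A.1 0 0 + A.1 1 1) * hd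

theorem conj_pos (h A : SL2) (ht : |A.1 0 0 + A.1 1 1| < 1) (hp : 0 < A.1 1 0) :
    0 < (h * A * h⁻¹).1 1 0 := by
  rw [conj_entry]
  have hd : h.1 0 0 * h.1 1 1 - h.1 0 1 * h.1 1 0 = 1 := by
    have := h.2
    rwa [Matrix.det_fin_two] at this
  have hA : A.1 0 0 * A.1 1 1 - A.1 0 1 * A.1 1 0 = 1 := by
    have := A.2
    rwa [Matrix.det_fin_two] at this
  set p := A.1 0 0
  set q := A.1 0 1
  set r := A.1 1 0
  set s := A.1 1 1
  set x := h.1 1 1
  set y := h.1 1 0
  have ht2 : (p + s) ^ 2 < 1 := by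
    rw [← sq_abs]
    nlinarith [abs_nonneg (p + s)]
  have hxy : 0 < x ^ 2 + y ^ 2 := by
    by_contra hcon
    have h1 : x ^ 2 + y ^ 2 ≤ 0 := not_lt.1 hcon
    have h2 : x = 0 := by nlinarith [sq_nonneg x, sq_nonneg y]
    have h3 : y = 0 := by nlinarith [sq_nonneg x, sq_nonneg y]
    rw [h2, h3] at hd
    norm_num at hd
  -- 4 r * form = (2 r x - (s - p) y)^2 + (4 - (p+s)^2) y^2
  have key : 4 * r * (r * x ^ 2 - (s - p) * x * y - q * y ^ 2) =
      (2 * r * x - (s - p) * y) ^ 2 + (4 - (p + s) ^ 2) * y ^ 2 := by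
    linear_combination (4 * y ^ 2) * hA
  by_cases hy : y = 0
  · have hx : x ≠ 0 := by
      rintro hx
      rw [hx, hy] at hxy
      norm_num at hxy
    rw [hy]
    have : 0 < r * x ^ 2 := by positivity
    linarith
  · have h1 : 0 < (4 - (p + s) ^ 2) * y ^ 2 := by
      apply mul_pos
      · linarith
      · positivity
    have h2 : 0 < 4 * r * (r * x ^ 2 - (s - p) * x * y - q * y ^ 2) := by
      rw [key]
      nlinarith [sq_nonneg (2 * r * x - (s - p) * y)]
    by_contra hcon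
    have h3 := not_lt.1 hcon
    nlinarith

theorem EE_conj (g x : GG) (hx : x ∈ EE) : g * x * g⁻¹ ∈ EE := by
  obtain ⟨h1, h2, h3, h4⟩ := hx
  refine ⟨?_, ?_, ?_, ?_⟩
  · show |(g.1 * x.1 * g.1⁻¹).1 0 0 + (g.1 * x.1 * g.1⁻¹).1 1 1| < 1
    rw [conj_trace]; exact h1
  · show |(g.2 * x.2 * g.2⁻¹).1 0 0 + (g.2 * x.2 * g.2⁻¹).1 1 1| < 1
    rw [conj_trace]; exact h2
  · exact conj_pos g.1 x.1 h1 h3
  · exact conj_pos g.2 x.2 h2 h4

theorem th_not_mem (γ : GG) (hγ : γ ∈ Lam) : th γ ∉ EE := by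
  rintro ⟨h1, h2, h3, h4⟩
  have e1 : (th γ).1 = γ.1 := conj_one γ.1
  have e2 : (th γ).2.1 = !![γ.2.1 0 0, - γ.2.1 0 1; - γ.2.1 1 0, γ.2.1 1 1] := conj_eps γ.2
  rw [e1] at h1 h3
  rw [e2] at h2 h4
  simp at h2 h4
  exact no_elliptic γ hγ h1 h2 h3 h4

/-- the rotation by a right angle -/
noncomputable def rot : SL2 := ⟨io 0 0 1 0, by rw [io_det]; norm_num⟩

theorem rot_mem : ((rot, rot) : GG) ∈ Lam :=
  ⟨0, 0, 1, 0, 0, 0, 1, 0, rfl, rfl, by simp, by simp, by simp, by simp⟩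

theorem rot_EE : ((rot, rot) : GG) ∈ EE := by
  have h : |rot.1 0 0 + rot.1 1 1| < 1 ∧ 0 < rot.1 1 0 := by
    constructor <;> simp [rot, io]
  exact ⟨h.1, h.1, h.2, h.2⟩

end Part15

section Part16

open MeasureTheory Measure Module Topology Set
open scoped Pointwise ENNReal InnerProductSpace

theorem twist_comp {G : Type} [Group G] [TopologicalSpace G] (α β γ : G ≃ₜ* G)
    (h : ∀ g, β (α g) = γ g) (a : UnitaryDual G) :
    UnitaryDual.twist α (UnitaryDual.twist β a) = UnitaryDual.twist γ a := by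
  induction a using Quotient.inductionOn with
  | _ π =>
    apply Quotient.sound
    refine ⟨LinearIsometryEquiv.refl ℂ _, fun g v => ?_⟩
    show π.ρ (β (α g)) v = π.ρ (γ g) v
    rw [h]

theorem twist_id {G : Type} [Group G] [TopologicalSpace G] (α : G ≃ₜ* G)
    (h : ∀ g, α g = g) (a : UnitaryDual G) : UnitaryDual.twist α a = a := by
  induction a using Quotient.inductionOn with
  | _ π =>
    apply Quotient.sound
    refine ⟨LinearIsometryEquiv.refl ℂ _, fun g v => ?_⟩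
    show π.ρ (α g) v = π.ρ g v
    rw [h]

theorem conjSL_mul (P Q : GL (Fin 2) ℝ) (A : SL2) :
    conjSL P (conjSL Q A) = conjSL (P * Q) A := by
  apply Subtype.ext
  show P.1 * (Q.1 * A.1 * Q⁻¹.1) * P⁻¹.1 = (P.1 * Q.1) * A.1 * (P * Q)⁻¹.1
  rw [mul_inv_rev, Units.val_mul]
  simp only [Matrix.mul_assoc]

theorem conjGG_mul (P Q : GL (Fin 2) ℝ × GL (Fin 2) ℝ) (g : GG) :
    conjGG P (conjGG Q g) = conjGG (P * Q) g := by
  show (conjSL P.1 (conjSL Q.1 g.1), conjSL P.2 (conjSL Q.2 g.2)) = _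
  rw [conjSL_mul, conjSL_mul]
  rfl

theorem conjGG_one (g : GG) : conjGG 1 g = g := by
  show (conjSL 1 g.1, conjSL 1 g.2) = g
  rw [conj_one, conj_one]

theorem isConjBy_eq {P : GL (Fin 2) ℝ × GL (Fin 2) ℝ} {α : GG ≃ₜ* GG} (h : IsConjBy P α) (g : GG) :
    α g = conjGG P g :=
  Prod.ext (Subtype.ext (h g).1) (Subtype.ext (h g).2)

theorem sameLPacket_iff (a b : UnitaryDual GG) :
    SameLPacket a b ↔ ∃ P, b = UnitaryDual.twist (conjGG P) a := by
  constructor
  · rintro ⟨P, α, h, rfl⟩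
    refine ⟨P, ?_⟩
    have h1 := twist_comp α (conjGG 1) (conjGG P) (fun g => by rw [conjGG_one, isConjBy_eq h]) a
    rw [twist_id (conjGG 1) conjGG_one] at h1
    exact h1
  · rintro ⟨P, h⟩
    exact ⟨P, conjGG P, isConjBy_conjGG P, h⟩

theorem sameLPacket_twist (a b : UnitaryDual GG) (P : GL (Fin 2) ℝ × GL (Fin 2) ℝ)
    (h : SameLPacket a b) : SameLPacket a (UnitaryDual.twist (conjGG P) b) := by
  rw [sameLPacket_iff] at h ⊢
  obtain ⟨Q, rfl⟩ := h
  exact ⟨Q * P, twist_comp _ _ _ (fun g => conjGG_mul Q P g) a⟩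

/-- Sanity check: lying in the same `L`-packet is an equivalence relation. -/
theorem sameLPacket_equivalence : Equivalence SameLPacket where
  refl a := (sameLPacket_iff a a).2 ⟨1, (twist_id _ conjGG_one a).symm⟩
  symm := by
    intro a b h
    rw [sameLPacket_iff] at h ⊢
    obtain ⟨P, rfl⟩ := h
    refine ⟨P⁻¹, ?_⟩
    rw [twist_comp (conjGG P⁻¹) (conjGG P) (conjGG 1) (fun g => by
      rw [conjGG_mul, mul_inv_cancel])]
    exact (twist_id _ conjGG_one a).symm
  trans := by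
    intro a b c h h'
    obtain ⟨P, rfl⟩ := (sameLPacket_iff b c).1 h'
    exact sameLPacket_twist a b P h

theorem exists_lattice : ∃ L : UniformLattice GG, L.Γ = Lam ∧
    ∀ _ : RepEquivalent L (L.map th), False := by
  have hdisc := lam_discrete
  obtain ⟨C, hC, hcov⟩ := lam_cocompact
  obtain ⟨F, hF, hFC, hfd⟩ := exists_fund Lam C hC hcov
  have hfin : IsFiniteMeasure (qm Lam nu F) := qm_finite Lam nu F hF C hC hFC
  have hinv : SMulInvariantMeasure GG (GG ⧸ Lam) (qm Lam nu F) := qm_inv Lam nu F hF hfd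
  let L : UniformLattice GG :=
    { Γ := Lam
      discrete := hdisc
      cocompact := by
        constructor
        have h1 : IsCompact ((QuotientGroup.mk : GG → GG ⧸ Lam) '' C) :=
          hC.image QuotientGroup.continuous_mk
        have h2 : (QuotientGroup.mk : GG → GG ⧸ Lam) '' C = univ := by
          apply Set.eq_univ_of_forall
          intro x
          obtain ⟨g, rfl⟩ := QuotientGroup.mk_surjective x
          obtain ⟨γ, hγ, hgγ⟩ := hcov g
          exact ⟨g * γ, hgγ, QuotientGroup.mk_mul_of_mem _ hγ⟩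
        rwa [h2] at h1
      μ := qm Lam nu F
      invariant := isInvariant_of_inv hinv
      finite := hfin
      ne_zero := by
        intro h0
        have h1 := qm_pos nu F hfd hF (univ : Set (GG ⧸ Lam)) isOpen_univ ⟨QuotientGroup.mk 1, trivial⟩
        apply h1
        rw [h0]; rfl }
  refine ⟨L, rfl, fun h => ?_⟩
  obtain ⟨U, hU⟩ := rep_map th L h
  have hp : MeasurePreserving (th.symm : GG → GG) nu nu := by
    apply preserve th.symm
    intro x
    rw [th_symm, th_symm, th_th]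
  exact no_twist nu C hC F hF hFC hfd th.symm.toMulEquiv th.symm.continuous th.continuous hp U hU
    EE EE_open EE_conj ((rot, rot) : GG) rot_mem rot_EE th_not_mem

/-- There are two uniform lattices in `SL₂(ℝ) × SL₂(ℝ)` that are `L`-equivalent but not
representation equivalent.  Moreover their multiplicities agree for the packets of every
equivalence relation on the unitary dual that is coarser than the orbit relation of
`GL₂(ℝ) × GL₂(ℝ)`. -/
theorem result : ∃ L₁ L₂ : UniformLattice GG, LEquivalent L₁ L₂ ∧ ¬ RepEquivalent L₁ L₂ ∧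
    ∀ R : UnitaryDual GG → UnitaryDual GG → Prop, Equivalence R →
      (∀ a b, SameLPacket a b → R a b) → ∀ a, packetMult R a L₁ = packetMult R a L₂ := by
  obtain ⟨L, _, hL⟩ := exists_lattice
  have hinv : ∀ b, UnitaryDual.twist th (UnitaryDual.twist th b) = b := by
    intro b
    rw [twist_comp th th (conjGG 1) (fun g => by rw [th_th, conjGG_one])]
    exact twist_id _ conjGG_one b
  refine ⟨L, L.map th, ?_, fun h => hL h, ?_⟩
  · exact packet_map th L SameLPacket hinv (fun a b h => sameLPacket_twist a b (1, eps) h)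
  · intro R hR hP
    exact packet_map th L R hinv (fun a b h => hR.trans h (hP b _
      ((sameLPacket_iff _ _).2 ⟨(1, eps), rfl⟩)))

end Part16

end Pool.Agent.Results.MP_96637b_nt.LEquivNotRep
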